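import Pool.Agent.N662.SE.Det

/-!
# Project SE: the probability that the polymers with two drifts are both confined, dimension `d`
-/

set_option autoImplicit false

open MeasureTheory ProbabilityTheory Filter Topology

namespace Pool.Agent.N662.SE

open TH967.DP

variable {d n : ℕ}

/-- the sites which can be visited in the first `n` steps -/
abbrev Site (d n : ℕ) : Type :=
  {s : ℕ × (Fin d → ℤ) //
    s ∈ Finset.Icc 1 n ×ˢ Fintype.piFinset (fun _ : Fin d => Finset.Icc (-(n : ℤ)) n)}

lemma pos_abs (w : Fin n → Step d) (i : ℕ) (k : Fin d) : |pos w i k| ≤ n := abs_pos_le w i k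

/-- the site visited at time `i+1` -/
def site (w : Fin n → Step d) (i : Fin n) : Site d n :=
  ⟨(i.val + 1, pos w (i.val + 1)), by
    have h2 := i.isLt
    rw [Finset.mem_product, Finset.mem_Icc, Fintype.mem_piFinset]
    refine ⟨⟨by omega, by omega⟩, fun k => ?_⟩
    have h1 := abs_le.1 (pos_abs w (i.val + 1) k)
    rw [Finset.mem_Icc]
    exact h1⟩

lemma site_inj (w : Fin n → Step d) : Function.Injective (site w) := by
  intro i j hij
  have := congrArg (fun s : Site d n => s.1.1) hij
  simp only [site] at this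
  exact Fin.ext (by omega)

/-- the visited sites -/
def vis (w : Fin n → Step d) : Finset (Site d n) := Finset.univ.image (site w)

lemma sum_vis (f : Site d n → ℝ) (w : Fin n → Step d) :
    ∑ s ∈ vis w, f s = ∑ i, f (site w i) := by
  unfold vis
  rw [Finset.sum_image (fun i _ j _ hij => site_inj w hij)]

/-- restriction of an environment to the relevant sites -/
def res (n : ℕ) (e : ℕ → (Fin d → ℤ) → ℝ) : Site d n → ℝ := fun s => e s.1.1 s.1.2

lemma energy_eq (e : ℕ → (Fin d → ℤ) → ℝ) (w : Fin n → Step d) :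
    energy e w = ∑ s ∈ vis w, res n e s := by
  rw [sum_vis]
  rfl

/-- the sites of the tube -/
noncomputable def win (θ : ℝ) (v : Fin d → ℝ) (r : ℝ) (n : ℕ) : Finset (Site d n) :=
  open Classical in
  Finset.univ.filter (fun s => θ * n ≤ (s.1.1 : ℝ) ∧
    ∀ k, |(s.1.2 k : ℝ) - (s.1.1 : ℝ) * v k| ≤ r)

/-- the times of the window -/
noncomputable def rows (θ : ℝ) (n : ℕ) : Finset (Fin n) :=
  open Classical in
  Finset.univ.filter (fun i => θ * n ≤ ((i.val + 1 : ℕ) : ℝ))

lemma card_vis_inter {θ r : ℝ} {v : Fin d → ℝ} {w : Fin n → Step d} (hw : w ∈ tube θ v r n) :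
    (vis w ∩ win θ v r n).card = (rows θ n).card := by
  classical
  have : vis w ∩ win θ v r n = (rows θ n).image (site w) := by
    ext s
    rw [Finset.mem_inter, Finset.mem_image]
    unfold vis win rows
    simp only [Finset.mem_image, Finset.mem_univ, true_and, Finset.mem_filter]
    constructor
    · rintro ⟨⟨i, rfl⟩, h1, h2⟩
      exact ⟨i, h1, rfl⟩
    · rintro ⟨i, hi, rfl⟩
      refine ⟨⟨i, rfl⟩, hi, ?_⟩
      exact hw (i.val + 1) hi (by have := i.isLt; omega)
  rw [this, Finset.card_image_of_injective _ (site_inj w)]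

lemma card_int_le {x r : ℝ} (hr : 0 ≤ r) : ((Finset.Icc ⌈x - r⌉ ⌊x + r⌋).card : ℝ) ≤ 2 * r + 1 := by
  rw [Int.card_Icc]
  rcases le_total (⌊x + r⌋ + 1 - ⌈x - r⌉) 0 with h | h
  · rw [Int.toNat_of_nonpos h]
    push_cast
    linarith
  · have h1 : (((⌊x + r⌋ + 1 - ⌈x - r⌉).toNat : ℤ) : ℝ) = ((⌊x + r⌋ + 1 - ⌈x - r⌉ : ℤ) : ℝ) := by
      rw [Int.toNat_of_nonneg h]
    rw [Int.cast_natCast] at h1
    rw [h1]
    push_cast
    have h2 := Int.floor_le (x + r)
    have h3 := Int.le_ceil (x - r)
    linarith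

lemma card_box_le {x : Fin d → ℝ} {r : ℝ} (hr : 0 ≤ r) :
    ((Fintype.piFinset (fun k => Finset.Icc ⌈x k - r⌉ ⌊x k + r⌋)).card : ℝ) ≤
      (2 * r + 1) ^ d := by
  rw [Fintype.card_piFinset]
  push_cast
  calc ∏ k : Fin d, ((Finset.Icc ⌈x k - r⌉ ⌊x k + r⌋).card : ℝ) ≤ ∏ _k : Fin d, (2 * r + 1) := by
        apply Finset.prod_le_prod
        · intro k _; positivity
        · intro k _; exact card_int_le hr
    _ = (2 * r + 1) ^ d := by simp

lemma card_win_le {θ r : ℝ} {v : Fin d → ℝ} (hr : 0 ≤ r) :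
    ((win θ v r n).card : ℝ) ≤ (rows θ n).card * (2 * r + 1) ^ d := by
  classical
  have h1 : (win θ v r n).card ≤ ∑ i ∈ rows θ n,
      (Fintype.piFinset (fun k => Finset.Icc ⌈((i.val + 1 : ℕ) : ℝ) * v k - r⌉
        ⌊((i.val + 1 : ℕ) : ℝ) * v k + r⌋)).card := by
    rw [← Finset.card_sigma]
    apply Finset.card_le_card_of_injOn
      (fun s => if h : 0 < n then
        (⟨⟨s.1.1 - 1, by
          have := s.2
          rw [Finset.mem_product, Finset.mem_Icc] at this
          omega⟩, s.1.2⟩ : (_ : Fin n) × (Fin d → ℤ)) else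
          absurd s.2 (by
            have := s.2
            rw [Finset.mem_product, Finset.mem_Icc] at this
            omega))
    · intro s hs
      have hs1 := s.2
      rw [Finset.mem_product, Finset.mem_Icc] at hs1
      have hn : 0 < n := by omega
      have hs2 : θ * n ≤ (s.1.1 : ℝ) ∧ ∀ k, |(s.1.2 k : ℝ) - (s.1.1 : ℝ) * v k| ≤ r := by
        have := hs
        unfold win at this
        simpa using this
      rw [Finset.mem_coe]
      simp only [dif_pos hn]
      rw [Finset.mem_sigma]
      have e : s.1.1 - 1 + 1 = s.1.1 := by omega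
      constructor
      · unfold rows
        rw [Finset.mem_filter]
        refine ⟨Finset.mem_univ _, ?_⟩
        simp only [e]
        exact hs2.1
      · simp only [e]
        rw [Fintype.mem_piFinset]
        intro k
        rw [Finset.mem_Icc]
        have h2 := abs_le.1 (hs2.2 k)
        constructor
        · apply Int.ceil_le.2
          linarith
        · apply Int.le_floor.2
          linarith
    · intro s hs t ht hst
      have hs1 := s.2
      have ht1 := t.2
      rw [Finset.mem_product, Finset.mem_Icc] at hs1 ht1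
      have hn : 0 < n := by omega
      simp only [dif_pos hn] at hst
      rw [Sigma.mk.injEq] at hst
      obtain ⟨h2, h3⟩ := hst
      rw [Fin.mk.injEq] at h2
      apply Subtype.ext
      apply Prod.ext
      · omega
      · exact eq_of_heq h3
  have h2 : (∑ i ∈ rows θ n,
      (Fintype.piFinset (fun k => Finset.Icc ⌈((i.val + 1 : ℕ) : ℝ) * v k - r⌉
        ⌊((i.val + 1 : ℕ) : ℝ) * v k + r⌋)).card : ℝ) ≤
      ∑ _i ∈ rows θ n, (2 * r + 1) ^ d := by
    apply Finset.sum_le_sum
    intro i _
    exact card_box_le (x := fun k => ((i.val + 1 : ℕ) : ℝ) * v k) hr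
  rw [Finset.sum_const, nsmul_eq_mul] at h2
  refine le_trans ?_ h2
  exact_mod_cast h1

lemma rows_card_ge {θ : ℝ} (hθ : 0 ≤ θ) (n : ℕ) : (1 - θ) * n ≤ ((rows θ n).card : ℝ) := by
  classical
  have h1 : Finset.univ.filter (fun i : Fin n => ¬ (θ * n ≤ ((i.val + 1 : ℕ) : ℝ))) ⊆
      Finset.univ.filter (fun i : Fin n => i.val < ⌊θ * n⌋₊) := by
    intro i hi
    rw [Finset.mem_filter] at hi ⊢
    refine ⟨hi.1, ?_⟩
    have h2 := not_le.1 hi.2
    have h3 : i.val + 1 ≤ ⌊θ * n⌋₊ := Nat.le_floor h2.le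
    omega
  have h2 : (Finset.univ.filter (fun i : Fin n => i.val < ⌊θ * n⌋₊)).card ≤ ⌊θ * n⌋₊ := by
    calc _ ≤ (Finset.range ⌊θ * n⌋₊).card := by
          apply Finset.card_le_card_of_injOn (fun i => i.val)
          · intro i hi
            simp only [Finset.coe_filter, Finset.mem_univ, true_and, Set.mem_setOf_eq] at hi
            simpa using hi
          · intro i _ j _ hij
            exact Fin.ext hij
      _ = _ := Finset.card_range _
  have h3 := Finset.card_le_card h1
  have h4 := Finset.card_filter_add_card_filter_not (s := (Finset.univ : Finset (Fin n)))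
    (fun i : Fin n => θ * n ≤ ((i.val + 1 : ℕ) : ℝ))
  rw [Finset.card_univ, Fintype.card_fin] at h4
  have h5 : (⌊θ * n⌋₊ : ℝ) ≤ θ * n := Nat.floor_le (by positivity)
  have h6 : ((rows θ n).card : ℝ) + ((Finset.univ.filter
      (fun i : Fin n => ¬ (θ * n ≤ ((i.val + 1 : ℕ) : ℝ)))).card : ℝ) = n := by
    unfold rows
    exact_mod_cast h4
  have h7 : ((Finset.univ.filter
      (fun i : Fin n => ¬ (θ * n ≤ ((i.val + 1 : ℕ) : ℝ)))).card : ℝ) ≤ ⌊θ * n⌋₊ := by
    exact_mod_cast h3.trans h2
  linarith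

lemma law {Ω : Type} [MeasurableSpace Ω] {P : Measure Ω} [IsProbabilityMeasure P]
    {ω : ℕ → (Fin d → ℤ) → Ω → ℝ} (h : IsEnv P ω) {κ : Type} [Fintype κ]
    {φ : κ → ℕ × (Fin d → ℤ)} (hφ : Function.Injective φ) :
    P.map (fun a k => ω (φ k).1 (φ k).2 a) = Measure.pi (fun _ : κ => P.map (ω 1 0)) := by
  have h1 := h.indep.precomp hφ
  rw [iIndepFun_iff_map_fun_eq_pi_map (fun i => (h.meas _ _).aemeasurable)] at h1
  have h2 : ∀ k, P.map (ω (φ k).1 (φ k).2) = P.map (ω 1 0) := fun k => (h.ident _ _).map_eq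
  rw [h1]
  congr 1
  ext1 k
  exact h2 k

/-- the partition function in terms of the restricted environment -/
noncomputable def zz (β : ℝ) (h : Fin d → ℝ) (A : Set (Fin n → Step d)) (η : Site d n → ℝ) : ℝ :=
  ∑ w : Fin n → Step d, A.indicator
    (fun w => Real.exp (∑ k, h k * (pos w n k : ℝ)) * Real.exp (β * ∑ s ∈ vis w, η s)) w

lemma part_eq_zz (β : ℝ) (h : Fin d → ℝ) (A : Set (Fin n → Step d))
    (e : ℕ → (Fin d → ℤ) → ℝ) :
    part β h e n A = zz β h A (res n e) := by
  unfold part zz
  apply Finset.sum_congr rfl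
  intro w _
  by_cases hw : w ∈ A
  · rw [Set.indicator_of_mem hw, Set.indicator_of_mem hw, energy_eq, ← Real.exp_add, add_comm]
  · rw [Set.indicator_of_notMem hw, Set.indicator_of_notMem hw]

lemma measurable_zz (β : ℝ) (h : Fin d → ℝ) (A : Set (Fin n → Step d)) :
    Measurable (zz β h A) := by
  unfold zz
  apply Finset.measurable_sum
  intro w _
  by_cases hw : w ∈ A
  · simp only [Set.indicator_of_mem hw]
    fun_prop
  · simp only [Set.indicator_of_notMem hw]
    exact measurable_const

lemma zz_eq_sub (β : ℝ) (h : Fin d → ℝ) (A : Set (Fin n → Step d)) [Fintype A]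
    (η : Site d n → ℝ) :
    zz β h A η = ∑ w : A, Real.exp (∑ k, h k * (pos w.1 n k : ℝ)) *
      Real.exp (β * ∑ s ∈ vis w.1, η s) := by
  have h1 : (∑ w : A, Real.exp (∑ k, h k * (pos w.1 n k : ℝ)) *
      Real.exp (β * ∑ s ∈ vis w.1, η s)) =
      ∑ w ∈ A.toFinset, Real.exp (∑ k, h k * (pos w n k : ℝ)) *
        Real.exp (β * ∑ s ∈ vis w, η s) :=
    Finset.sum_set_coe A (f := fun w =>
      Real.exp (∑ k, h k * (pos w n k : ℝ)) * Real.exp (β * ∑ s ∈ vis w, η s))
  rw [h1]
  unfold zz
  rw [← Finset.sum_subset (Finset.subset_univ A.toFinset)]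
  · apply Finset.sum_congr rfl
    intro w hw
    rw [Set.indicator_of_mem (Set.mem_toFinset.1 hw)]
  · intro w _ hw
    rw [Set.indicator_of_notMem (fun h2 => hw (Set.mem_toFinset.2 h2))]

lemma measurable_prob (β : ℝ) (h : Fin d → ℝ) (A : Set (Fin n → Step d)) {Ω : Type}
    [MeasurableSpace Ω] {ω : ℕ → (Fin d → ℤ) → Ω → ℝ} (hm : ∀ i y, Measurable (ω i y)) :
    Measurable (fun x => prob β h (fun i y => ω i y x) n A) := by
  unfold prob
  simp_rw [part_eq_zz]
  have h1 : Measurable (fun x => res n (fun i y => ω i y x)) := by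
    rw [measurable_pi_iff]
    intro s
    exact hm _ _
  exact ((measurable_zz β h A).comp h1).div ((measurable_zz β h Set.univ).comp h1)

/-- the main bound -/
theorem pair_bound (hd : 1 ≤ d) (ac : Pool.Agent.N662.SD.S_AC) {Ω : Type} [MeasurableSpace Ω]
    {P : Measure Ω} [IsProbabilityMeasure P] {ω : ℕ → (Fin d → ℤ) → Ω → ℝ} (he : IsEnv P ω)
    {a₀ b₀ : ℝ} (hab : a₀ < b₀)
    (hp : 0 < (P.map (ω 1 0)).real (Set.Ici b₀)) (hm : 0 < (P.map (ω 1 0)).real (Set.Iic a₀))
    {β : ℝ} (hβ : 0 < β) {h h' v v' : Fin d → ℝ} {θ r b : ℝ} (hθ : θ ≤ 1)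
    (hvv : ∀ i : ℕ, θ * n ≤ i → 1 ≤ i → i ≤ n → ∃ k, 2 * r < i * |v' k - v k|)
    {R : ℝ} (hR : 0 ≤ R)
    (hR2 : n * (∑ k, (h' k - h k) * (v' k - v k)) + 2 * (∑ k, |h' k - h k|) * r + 2 * b ≤ R) :
    ((rows θ n).card : ℝ) * (1 - Real.exp (-(β * (b₀ - a₀)))) *
      P.real {x | Real.exp (-b) < prob β h (fun i y => ω i y x) n (tube θ v r n) ∧
        Real.exp (-b) < prob β h' (fun i y => ω i y x) n (tube θ v' r n)} ≤
    (R + 2) * Real.sqrt ((win θ v r n).card *
      (1 / (P.map (ω 1 0)).real (Set.Ici b₀) + 1 / (P.map (ω 1 0)).real (Set.Iic a₀))) := by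
  classical
  set μ := P.map (ω 1 0) with hμ
  haveI : IsProbabilityMeasure μ := Measure.isProbabilityMeasure_map (he.meas 1 0).aemeasurable
  set A := tube θ v r n with hA
  set A' := tube θ v' r n with hA'
  have hnn : θ * n ≤ (n : ℝ) := by
    have : (0 : ℝ) ≤ n := Nat.cast_nonneg n
    nlinarith
  have eA : ∀ w ∈ A, ∀ k, |(pos w n k : ℝ) - n * v k| ≤ r := fun w hw => hw n hnn le_rfl
  have eA' : ∀ w ∈ A', ∀ k, |(pos w n k : ℝ) - n * v' k| ≤ r := fun w hw => hw n hnn le_rfl
  have hq : 0 ≤ 1 - Real.exp (-(β * (b₀ - a₀))) := by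
    have : Real.exp (-(β * (b₀ - a₀))) ≤ 1 := Real.exp_le_one_iff.2 (by nlinarith)
    linarith
  have hRHS : 0 ≤ (R + 2) * Real.sqrt ((win θ v r n).card * (1 / μ.real (Set.Ici b₀) +
      1 / μ.real (Set.Iic a₀))) := by positivity
  rcases isEmpty_or_nonempty A with hemp | hne
  · have : {x | Real.exp (-b) < prob β h (fun i y => ω i y x) n A ∧
        Real.exp (-b) < prob β h' (fun i y => ω i y x) n A'} = ∅ := by
      ext x
      simp only [Set.mem_setOf_eq, Set.mem_empty_iff_false, iff_false, not_and]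
      intro h1
      exfalso
      have h2 := part_pos_of_prob (Real.exp_pos _).le h1
      rw [part_eq_zz, zz_eq_sub, Finset.univ_eq_empty, Finset.sum_empty] at h2
      exact lt_irrefl _ h2
    rw [this]
    simpa using hRHS
  · set Y : (Site d n → ℝ) → ℝ := fun η => Real.log (zz β h A' η) - b with hY
    have hYm : Measurable Y :=
      (Real.measurable_log.comp (measurable_zz β h A')).sub measurable_const
    have hYT : ∀ η η' : Site d n → ℝ, (∀ s, s ∉ win θ v r n → η s = η' s) → Y η = Y η' := by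
      intro η η' hηη
      simp only [hY]
      congr 2
      unfold zz
      apply Finset.sum_congr rfl
      intro w _
      by_cases hw : w ∈ A'
      · rw [Set.indicator_of_mem hw, Set.indicator_of_mem hw]
        congr 3
        apply Finset.sum_congr rfl
        intro s hs
        apply hηη
        intro hs2
        unfold vis at hs
        rw [Finset.mem_image] at hs
        obtain ⟨i, _, rfl⟩ := hs
        have hs3 : θ * n ≤ (((site w i).1.1 : ℕ) : ℝ) ∧
            ∀ k, |((site w i).1.2 k : ℝ) - (((site w i).1.1 : ℕ) : ℝ) * v k| ≤ r := by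
          unfold win at hs2
          simpa using hs2
        have e1 : (site w i).1.1 = i.val + 1 := rfl
        have e2 : (site w i).1.2 = pos w (i.val + 1) := rfl
        rw [e1, e2] at hs3
        obtain ⟨k, h2⟩ := hvv (i.val + 1) hs3.1 (by omega) (by have := i.isLt; omega)
        have h1 := hw (i.val + 1) hs3.1 (by have := i.isLt; omega) k
        have h4 := hs3.2 k
        have h5 : |((i.val + 1 : ℕ) : ℝ) * (v' k - v k)| ≤ 2 * r := by
          have e3 : ((i.val + 1 : ℕ) : ℝ) * (v' k - v k) =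
              ((pos w (i.val + 1) k : ℝ) - ((i.val + 1 : ℕ) : ℝ) * v k) -
              ((pos w (i.val + 1) k : ℝ) - ((i.val + 1 : ℕ) : ℝ) * v' k) := by ring
          rw [e3]
          refine (abs_sub _ _).trans ?_
          linarith
        rw [abs_mul, Nat.abs_cast] at h5
        linarith
      · rw [Set.indicator_of_notMem hw, Set.indicator_of_notMem hw]
    have key := ac (Site d n) A μ a₀ b₀ hab hp hm β hβ (win θ v r n)
      (fun w => Real.exp (∑ k, h k * (pos w.1 n k : ℝ))) (fun w => Real.exp_pos _)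
      (fun w => vis w.1)
      (rows θ n).card (fun w => card_vis_inter w.2) Y hYm hYT R hR
    refine le_trans ?_ key
    apply mul_le_mul_of_nonneg_left _ (by positivity)
    have hres : Measurable (fun x => res n (fun i y => ω i y x)) := by
      rw [measurable_pi_iff]
      intro s
      exact he.meas _ _
    have hlaw : P.map (fun x => res n (fun i y => ω i y x)) =
        Measure.pi (fun _ : Site d n => μ) :=
      law he (κ := Site d n) (φ := fun s => s.1) Subtype.val_injective
    have hS : MeasurableSet {η : Site d n → ℝ | Y η ≤ Real.log (zz β h A η) ∧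
        Real.log (zz β h A η) ≤ Y η + R} := by
      have h1 : Measurable (fun η => Real.log (zz β h A η)) :=
        Real.measurable_log.comp (measurable_zz β h A)
      exact (measurableSet_le hYm h1).inter (measurableSet_le h1 (hYm.add_const R))
    have hzz : ∀ η : Site d n → ℝ, (∑ w : A, Real.exp (∑ k, h k * (pos w.1 n k : ℝ)) *
        Real.exp (β * ∑ s ∈ vis w.1, η s)) = zz β h A η := fun η => (zz_eq_sub β h A η).symm
    simp_rw [hzz]
    rw [← hlaw, map_measureReal_apply hres hS]
    apply measureReal_mono _ (measure_ne_top _ _)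
    rintro x ⟨h1, h2⟩
    obtain ⟨h3, h4⟩ := sandwich hd eA eA' h1 h2
    rw [part_eq_zz, part_eq_zz] at h3 h4
    simp only [Set.mem_preimage, Set.mem_setOf_eq, hY]
    constructor <;> linarith

end Pool.Agent.N662.SE
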