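import Pool.Agent.N662.SE.Exp2
import Pool.Agent.N523.SE.CONC
import Pool.Agent.N50.SE.Cvx
import Pool.Agent.N50.SE.Sup
import Pool.Agent.N50.SE.Var
import Pool.Agent.N951.SE.Id
import Pool.Agent.N803.SE.DBLX
import Pool.Agent.N97.SE.DBL
import Pool.Agent.N353.SE.RATE
import Pool.Agent.N316.SE.Ratex
import Pool.Agent.N427.SE.UPX
import Pool.Agent.N281.SE.Curv
import Pool.Agent.N340.SE.PP
import Pool.Agent.N692.SD.AC

/-!
# Project SE: assembly
-/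

set_option autoImplicit false

open MeasureTheory ProbabilityTheory Filter Topology

namespace Pool.Agent.N662.SE

open TH967.DP (Step pos energy)

theorem upx (mgf : S_MGF) : S_UPX := by
  have hc : S_CONC := Pool.Agent.N523.SE.CONC.main mgf
  have hs : S_SUP := Pool.Agent.N50.SE.SUP.main hc
  have hv : S_CVX := Pool.Agent.N50.SE.CVX.main hc
  have hd : S_DBL := Pool.Agent.N97.SE.DBL.main hc
  have hr : S_RATE := Pool.Agent.N353.SE.Rate.main hs hd hv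
  have hi : S_ID := Pool.Agent.N951.SE.t
  have hdx : S_DBLX := Pool.Agent.N803.SE.DBLX.main hc hi
  have hrx : S_RATEX := Pool.Agent.N316.SE.Ratex.main hr hdx
  exact Pool.Agent.N427.SE.UPX.main hc hi hrx Pool.Agent.N281.SE.curv Pool.Agent.N340.SE.pp

/-- The upper bounds: for almost every drift. -/
theorem upper (mgf : S_MGF) {d : ℕ} (hd : 1 ≤ d) {Ω : Type} [MeasurableSpace Ω] (P : Measure Ω)
    [IsProbabilityMeasure P] (ω : ℕ → (Fin d → ℤ) → Ω → ℝ) (he : IsEnv P ω)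
    (hexp : ∀ b : ℝ, Integrable (fun x => Real.exp (b * ω 1 0 x)) P) (β : ℝ) :
    ∀ᵐ h : Fin d → ℝ, ∃ v : Fin d → ℝ,
      (∀ ξ : ℝ, 0 < ξ → ξ < 1 → Concentrated P ω β h ξ → ∀ b c : ℝ, (1 + ξ) / 2 < b → b ≤ 1 →
        c < 2 * b - 1 → ∀ᵐ x ∂P, ∀ᶠ n : ℕ in atTop,
          1 - Real.exp (-(n : ℝ) ^ c) ≤ polymer β h (fun i y => ω i y x) n
            {w | ∀ i : ℕ, i ≤ n → dev v w i ≤ (n : ℝ) ^ b}) ∧
      Concentrated P ω β h (1 / 2) ∧
      2 * wander P ω β h v - 1 ≤ chiUp P ω β h ∧ chiUp P ω β h ≤ 1 / 2 := by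
  have hc : S_CONC := Pool.Agent.N523.SE.CONC.main mgf
  filter_upwards [upx mgf d hd Ω P ω he hexp β] with h hh
  obtain ⟨v, hv⟩ := hh
  have h1 : ∀ ξ : ℝ, 0 < ξ → ξ < 1 → Concentrated P ω β h ξ → ∀ b c : ℝ, (1 + ξ) / 2 < b →
      b ≤ 1 → c < 2 * b - 1 → ∀ᵐ x ∂P, ∀ᶠ n : ℕ in atTop,
        1 - Real.exp (-(n : ℝ) ^ c) ≤ polymer β h (fun i y => ω i y x) n
          {w | ∀ i : ℕ, i ≤ n → dev v w i ≤ (n : ℝ) ^ b} := by
    intro ξ hξ0 hξ1 hξ
    rw [concentrated_iff hd fun h n => (hc d hd Ω P ω he hexp β h 0 0 n).2.1] at hξ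
    obtain ⟨U, hU, hhU, α, C0, hα, hC⟩ := hξ
    exact up_euclid' (hv U hU hhU ξ α C0 hξ0 hξ1 hα hC)
  exact ⟨v, h1, concentrated_half hc hd he hexp β h, scaling hc hd he hexp h1,
    chiUp_le_half hc hd he hexp β h⟩

/-- The fluctuation exponents in dimension one. -/
theorem fluct (mgf : S_MGF) {Ω : Type} [MeasurableSpace Ω] (P : Measure Ω)
    [IsProbabilityMeasure P] (ω : ℕ → (Fin 1 → ℤ) → Ω → ℝ) (he : IsEnv P ω)
    (hexp : ∀ b : ℝ, Integrable (fun x => Real.exp (b * ω 1 0 x)) P)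
    (hnc : ¬ ∃ c : ℝ, ∀ᵐ x ∂P, ω 1 0 x = c) (β : ℝ) (hβ : 0 < β) :
    (∀ h v : Fin 1 → ℝ, (1 - wander P ω β h v) / 2 ≤ chi P ω β h ∧
      chi P ω β h ≤ chiUp P ω β h ∧ chiUp P ω β h ≤ 1 / 2) ∧
    ∀ᵐ h : Fin 1 → ℝ, (1 - chiUp P ω β h) / 4 ≤ chi P ω β h ∧
      ∀ t : ℝ, t < 1 / 8 → ∀ᶠ n : ℕ in atTop, (n : ℝ) ^ (2 * t) ≤
        variance (fun x => logZ β h (fun i y => ω i y x) n) P := by
  have hc : S_CONC := Pool.Agent.N523.SE.CONC.main mgf
  have hvar : S_VAR := Pool.Agent.N50.SE.VAR.main hc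
  have ac := Pool.Agent.N692.SD.AC.main
  refine ⟨fun h v => ⟨chi_ge ac hc hvar he hexp hnc hβ h v,
    chi_le_chiUp hc le_rfl he hexp β h, chiUp_le_half hc le_rfl he hexp β h⟩, ?_⟩
  filter_upwards [upper mgf le_rfl P ω he hexp β] with h hh
  obtain ⟨v, h1, h2, h3, h4⟩ := hh
  constructor
  · have h5 := chi_ge ac hc hvar he hexp hnc hβ h v
    linarith
  · intro t ht
    obtain ⟨b, hb1, hb2⟩ := exists_between
      (lt_min (by norm_num : (3 / 4 : ℝ) < 1) (by linarith : (3 / 4 : ℝ) < 1 - 2 * t))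
    have hb3 := lt_min_iff.1 hb2
    have h5 := h1 (1 / 2) (by norm_num) (by norm_num) h2 b 0 (by linarith) hb3.1.le
      (by linarith)
    have h6 := h1 (1 / 2) (by norm_num) (by norm_num) h2 b (1 / 4) (by linarith) hb3.1.le
      (by linarith)
    apply var_of_conf ac hc hvar he hexp hnc hβ (by linarith : 0 ≤ b) hb3.1 _
      (by linarith : t < (1 - b) / 2) (v := v)
    filter_upwards [h6] with x hx
    have h7 : ∀ᶠ n : ℕ in atTop, Real.exp (-(n : ℝ) ^ (1 / 4 : ℝ)) < 1 / 2 := by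
      have h5 : Tendsto (fun n : ℕ => (n : ℝ) ^ (1 / 4 : ℝ)) atTop atTop :=
        (tendsto_rpow_atTop (by norm_num)).comp tendsto_natCast_atTop_atTop
      have h6 := Real.tendsto_exp_neg_atTop_nhds_zero.comp h5
      exact h6.eventually (gt_mem_nhds (by norm_num : (0 : ℝ) < 1 / 2))
    filter_upwards [hx, h7] with n hn hn2
    linarith

end Pool.Agent.N662.SE
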