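import Pool.Agent.TH967.DP.Defs

/-!
# Directed polymers on `ℤ^d` with a drift: definitions

The walk (`Step`, `pos`) and the energy are those of `Pool/Agent/TH967/DP/Defs.lean`.
-/

set_option autoImplicit false

open MeasureTheory ProbabilityTheory Filter

namespace Pool.Agent.N662.SE

open TH967.DP

variable {d : ℕ}

/-- The sum of `exp (β ∑_{i≤n} η(i, S_i) + h · S_n)` over the walks of `n` steps in `A`. -/
noncomputable def part (β : ℝ) (h : Fin d → ℝ) (η : ℕ → (Fin d → ℤ) → ℝ) (n : ℕ)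
    (A : Set (Fin n → Step d)) : ℝ :=
  ∑ w : Fin n → Step d,
    A.indicator (fun w => Real.exp (β * energy η w + ∑ k, h k * (pos w n k : ℝ))) w

/-- The polymer measure with drift `h`. -/
noncomputable def prob (β : ℝ) (h : Fin d → ℝ) (η : ℕ → (Fin d → ℤ) → ℝ) (n : ℕ)
    (A : Set (Fin n → Step d)) : ℝ :=
  part β h η n A / part β h η n Set.univ

/-- The walks which stay within distance `r` (in every coordinate) of the line of slope `v` at the
times `θ n ≤ i ≤ n`. -/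
def tube (θ : ℝ) (v : Fin d → ℝ) (r : ℝ) (n : ℕ) : Set (Fin n → Step d) :=
  {w | ∀ i : ℕ, θ * n ≤ i → i ≤ n → ∀ k, |(pos w i k : ℝ) - i * v k| ≤ r}

/-- An i.i.d. environment. -/
structure IsEnv {Ω : Type} [MeasurableSpace Ω] (P : Measure Ω)
    (ω : ℕ → (Fin d → ℤ) → Ω → ℝ) : Prop where
  meas : ∀ i y, Measurable (ω i y)
  indep : iIndepFun (fun s : ℕ × (Fin d → ℤ) => ω s.1 s.2) P
  ident : ∀ i y, IdentDistrib (ω i y) (ω 1 0) P P

/-- `log W_n(h)` of the environment shifted by `(m, z)`, at the point `x` of the probability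
space. -/
noncomputable def lw {Ω : Type} (ω : ℕ → (Fin d → ℤ) → Ω → ℝ) (β : ℝ) (h : Fin d → ℝ) (m : ℕ)
    (z : Fin d → ℤ) (n : ℕ) (x : Ω) : ℝ :=
  Real.log (part β h (fun i y => ω (m + i) (z + y) x) n Set.univ)

/-- `E log W_n(h)` -/
noncomputable def free {Ω : Type} [MeasurableSpace Ω] (P : Measure Ω)
    (ω : ℕ → (Fin d → ℤ) → Ω → ℝ) (β : ℝ) (h : Fin d → ℝ) (n : ℕ) : ℝ :=
  ∫ x, lw ω β h 0 0 n x ∂P

/-- `E e^{β ω} + E e^{-β ω}` -/
noncomputable def mom {Ω : Type} [MeasurableSpace Ω] (P : Measure Ω)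
    (ω : ℕ → (Fin d → ℤ) → Ω → ℝ) (β : ℝ) : ℝ :=
  ∫ x, Real.exp (β * ω 1 0 x) ∂P + ∫ x, Real.exp (-(β * ω 1 0 x)) ∂P

end Pool.Agent.N662.SE
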