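import Pool.Agent.N662.SE.Stm
import Pool.Agent.TH967.DP.Paths

/-!
# Project SE: deterministic part of the lower bound in dimension `d`
-/

set_option autoImplicit false

open MeasureTheory ProbabilityTheory Filter Topology

namespace Pool.Agent.N662.SE

open TH967.DP

variable {d n : ℕ}

lemma part_nonneg (β : ℝ) (h : Fin d → ℝ) (η : ℕ → (Fin d → ℤ) → ℝ) (A : Set (Fin n → Step d)) :
    0 ≤ part β h η n A :=
  Finset.sum_nonneg fun _ _ => Set.indicator_nonneg (fun _ _ => (Real.exp_pos _).le) _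

lemma part_mono (β : ℝ) (h : Fin d → ℝ) (η : ℕ → (Fin d → ℤ) → ℝ) {A B : Set (Fin n → Step d)}
    (hAB : A ⊆ B) : part β h η n A ≤ part β h η n B :=
  Finset.sum_le_sum fun _ _ =>
    Set.indicator_le_indicator_of_subset hAB (fun _ => (Real.exp_pos _).le) _

lemma part_univ_pos (hd : 1 ≤ d) (β : ℝ) (h : Fin d → ℝ) (η : ℕ → (Fin d → ℤ) → ℝ) (n : ℕ) :
    0 < part β h η n Set.univ := by
  haveI : Nonempty (Fin n → Step d) := ⟨fun _ => (⟨0, hd⟩, true)⟩
  unfold part
  apply Finset.sum_pos _ Finset.univ_nonempty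
  intro w _
  rw [Set.indicator_of_mem (Set.mem_univ w)]
  exact Real.exp_pos _

lemma prob_nonneg (β : ℝ) (h : Fin d → ℝ) (η : ℕ → (Fin d → ℤ) → ℝ) (A : Set (Fin n → Step d)) :
    0 ≤ prob β h η n A :=
  div_nonneg (part_nonneg _ _ _ _) (part_nonneg _ _ _ _)

lemma prob_mono (β : ℝ) (h : Fin d → ℝ) (η : ℕ → (Fin d → ℤ) → ℝ) {A B : Set (Fin n → Step d)}
    (hAB : A ⊆ B) : prob β h η n A ≤ prob β h η n B :=
  div_le_div_of_nonneg_right (part_mono _ _ _ hAB) (part_nonneg _ _ _ _)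

lemma prob_univ (hd : 1 ≤ d) (β : ℝ) (h : Fin d → ℝ) (η : ℕ → (Fin d → ℤ) → ℝ) (n : ℕ) :
    prob β h η n Set.univ = 1 := div_self (part_univ_pos hd β h η n).ne'

lemma prob_le_one (hd : 1 ≤ d) (β : ℝ) (h : Fin d → ℝ) (η : ℕ → (Fin d → ℤ) → ℝ)
    (A : Set (Fin n → Step d)) : prob β h η n A ≤ 1 := by
  rw [← prob_univ hd β h η n]
  exact prob_mono _ _ _ (Set.subset_univ _)

lemma part_pos_of_prob {β : ℝ} {h : Fin d → ℝ} {η : ℕ → (Fin d → ℤ) → ℝ}
    {A : Set (Fin n → Step d)} {ε : ℝ} (hε : 0 ≤ ε) (hA : ε < prob β h η n A) :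
    0 < part β h η n A := by
  rcases (part_nonneg β h η A).lt_or_eq with h0 | h0
  · exact h0
  · exfalso
    unfold prob at hA
    rw [← h0, zero_div] at hA
    linarith

lemma dot_le {h h' v : Fin d → ℝ} {r : ℝ} {x : Fin d → ℤ}
    (hx : ∀ k, |(x k : ℝ) - n * v k| ≤ r) :
    |∑ k, (h' k - h k) * ((x k : ℝ) - n * v k)| ≤ (∑ k, |h' k - h k|) * r := by
  refine (Finset.abs_sum_le_sum_abs _ _).trans ?_
  rw [Finset.sum_mul]
  apply Finset.sum_le_sum
  intro k _
  rw [abs_mul]
  exact mul_le_mul_of_nonneg_left (hx k) (abs_nonneg _)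

lemma dot_split (h h' v : Fin d → ℝ) (x : Fin d → ℤ) :
    ∑ k, h' k * (x k : ℝ) = ∑ k, h k * (x k : ℝ) + ∑ k, (h' k - h k) * (n * v k) +
      ∑ k, (h' k - h k) * ((x k : ℝ) - n * v k) := by
  rw [← Finset.sum_add_distrib, ← Finset.sum_add_distrib]
  apply Finset.sum_congr rfl
  intro k _
  ring

/-- comparison of partition functions with different drifts, from below -/
lemma part_drift_ge {β : ℝ} {h h' v : Fin d → ℝ} {r : ℝ} {η : ℕ → (Fin d → ℤ) → ℝ}
    {A : Set (Fin n → Step d)} (hA : ∀ w ∈ A, ∀ k, |(pos w n k : ℝ) - n * v k| ≤ r) :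
    Real.exp (∑ k, (h' k - h k) * (n * v k) - (∑ k, |h' k - h k|) * r) * part β h η n A ≤
      part β h' η n A := by
  unfold part
  rw [Finset.mul_sum]
  apply Finset.sum_le_sum
  intro w _
  by_cases hw : w ∈ A
  · rw [Set.indicator_of_mem hw, Set.indicator_of_mem hw, ← Real.exp_add]
    apply Real.exp_le_exp.2
    have h2 := dot_le (h := h) (h' := h') (hA w hw)
    have h3 := (abs_le.1 h2).1
    have h4 := dot_split (n := n) h h' v (pos w n)
    linarith
  · rw [Set.indicator_of_notMem hw, Set.indicator_of_notMem hw, mul_zero]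

/-- comparison of partition functions with different drifts, from above -/
lemma part_drift_le {β : ℝ} {h h' v : Fin d → ℝ} {r : ℝ} {η : ℕ → (Fin d → ℤ) → ℝ}
    {A : Set (Fin n → Step d)} (hA : ∀ w ∈ A, ∀ k, |(pos w n k : ℝ) - n * v k| ≤ r) :
    part β h' η n A ≤
      Real.exp (∑ k, (h' k - h k) * (n * v k) + (∑ k, |h' k - h k|) * r) * part β h η n A := by
  unfold part
  rw [Finset.mul_sum]
  apply Finset.sum_le_sum
  intro w _
  by_cases hw : w ∈ A
  · rw [Set.indicator_of_mem hw, Set.indicator_of_mem hw, ← Real.exp_add]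
    apply Real.exp_le_exp.2
    have h2 := dot_le (h := h) (h' := h') (hA w hw)
    have h3 := (abs_le.1 h2).2
    have h4 := dot_split (n := n) h h' v (pos w n)
    linarith
  · rw [Set.indicator_of_notMem hw, Set.indicator_of_notMem hw, mul_zero]

lemma log_part_univ_le (hd : 1 ≤ d) {β : ℝ} {h : Fin d → ℝ} {b : ℝ} {η : ℕ → (Fin d → ℤ) → ℝ}
    {A B : Set (Fin n → Step d)}
    (hA : Real.exp (-b) < prob β h η n A) (hB : 0 < part β h η n B) :
    Real.log (part β h η n B) ≤ Real.log (part β h η n A) + b := by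
  have hp := part_pos_of_prob (Real.exp_pos _).le hA
  unfold prob at hA
  rw [lt_div_iff₀ (part_univ_pos hd β h η n)] at hA
  have h1 : part β h η n B ≤ part β h η n A * Real.exp b := by
    have h2 := part_mono β h η (Set.subset_univ B)
    have h3 : part β h η n Set.univ ≤ part β h η n A * Real.exp b := by
      have h4 : Real.exp b * (Real.exp (-b) * part β h η n Set.univ) <
          Real.exp b * part β h η n A := mul_lt_mul_of_pos_left hA (Real.exp_pos b)
      rw [← mul_assoc, ← Real.exp_add, add_neg_cancel, Real.exp_zero, one_mul] at h4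
      linarith
    exact h2.trans h3
  calc Real.log (part β h η n B) ≤ Real.log (part β h η n A * Real.exp b) :=
        Real.log_le_log hB h1
    _ = _ := by rw [Real.log_mul hp.ne' (Real.exp_pos b).ne', Real.log_exp]

/-- the sandwich -/
lemma sandwich (hd : 1 ≤ d) {β : ℝ} {h h' v v' : Fin d → ℝ} {r b : ℝ}
    {η : ℕ → (Fin d → ℤ) → ℝ} {A A' : Set (Fin n → Step d)}
    (hA : ∀ w ∈ A, ∀ k, |(pos w n k : ℝ) - n * v k| ≤ r)
    (hA' : ∀ w ∈ A', ∀ k, |(pos w n k : ℝ) - n * v' k| ≤ r)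
    (h1 : Real.exp (-b) < prob β h η n A) (h2 : Real.exp (-b) < prob β h' η n A') :
    Real.log (part β h η n A') ≤ Real.log (part β h η n A) + b ∧
    Real.log (part β h η n A) ≤ Real.log (part β h η n A') +
      (n * (∑ k, (h' k - h k) * (v' k - v k)) + 2 * (∑ k, |h' k - h k|) * r + b) := by
  have pA : 0 < part β h η n A := part_pos_of_prob (Real.exp_pos _).le h1
  have pA' : 0 < part β h' η n A' := part_pos_of_prob (Real.exp_pos _).le h2
  have qA' : 0 < part β h η n A' := by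
    have h3 := part_drift_le (β := β) (h := h) (h' := h') (η := η) hA'
    by_contra hc
    have h4 : part β h η n A' = 0 := le_antisymm (not_lt.1 hc) (part_nonneg _ _ _ _)
    rw [h4, mul_zero] at h3
    linarith
  have qA : 0 < part β h' η n A := by
    have h3 := part_drift_ge (β := β) (h := h) (h' := h') (η := η) hA
    exact lt_of_lt_of_le (mul_pos (Real.exp_pos _) pA) h3
  refine ⟨log_part_univ_le hd h1 qA', ?_⟩
  have h3 := log_part_univ_le hd h2 qA
  have h4 := Real.log_le_log (mul_pos (Real.exp_pos _) pA)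
    (part_drift_ge (β := β) (h := h) (h' := h') (η := η) hA)
  have h5 := Real.log_le_log pA' (part_drift_le (β := β) (h := h) (h' := h') (η := η) hA')
  rw [Real.log_mul (Real.exp_pos _).ne' pA.ne', Real.log_exp] at h4
  rw [Real.log_mul (Real.exp_pos _).ne' qA'.ne', Real.log_exp] at h5
  have h6 : n * (∑ k, (h' k - h k) * (v' k - v k)) =
      ∑ k, (h' k - h k) * (n * v' k) - ∑ k, (h' k - h k) * (n * v k) := by
    rw [Finset.mul_sum, ← Finset.sum_sub_distrib]
    apply Finset.sum_congr rfl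
    intro k _
    ring
  rw [h6]
  linarith

/-- the drift is almost monotone in the slope -/
lemma drift_mono (hd : 1 ≤ d) {β : ℝ} {h h' v v' : Fin d → ℝ} {r b : ℝ}
    {η : ℕ → (Fin d → ℤ) → ℝ} {A A' : Set (Fin n → Step d)}
    (hA : ∀ w ∈ A, ∀ k, |(pos w n k : ℝ) - n * v k| ≤ r)
    (hA' : ∀ w ∈ A', ∀ k, |(pos w n k : ℝ) - n * v' k| ≤ r)
    (h1 : Real.exp (-b) < prob β h η n A) (h2 : Real.exp (-b) < prob β h' η n A') :
    0 ≤ n * (∑ k, (h' k - h k) * (v' k - v k)) + 2 * (∑ k, |h' k - h k|) * r + 2 * b := by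
  obtain ⟨h3, h4⟩ := sandwich hd hA hA' h1 h2
  linarith

end Pool.Agent.N662.SE
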