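import Pool.Agent.N662.SE.Stm

/-!
# Project SE: statements of the parts, second batch (scaling inequality)
-/

set_option autoImplicit false

open MeasureTheory ProbabilityTheory Filter Topology

namespace Pool.Agent.N662.SE

open TH967.DP

/-- Concentration of `log W_n(h)` on the scale `n^ξ`, uniformly for the drifts `h ∈ U`. -/
def Conc {d : ℕ} {Ω : Type} [MeasurableSpace Ω] (P : Measure Ω) (ω : ℕ → (Fin d → ℤ) → Ω → ℝ)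
    (β : ℝ) (U : Set (Fin d → ℝ)) (ξ α C0 : ℝ) : Prop :=
  ∀ h ∈ U, ∀ n : ℕ, 1 ≤ n →
    ∫⁻ x, ENNReal.ofReal (Real.exp (α * (n : ℝ) ^ (-ξ) * |lw ω β h 0 0 n x - free P ω β h n|)) ∂P ≤
      ENNReal.ofReal C0

/-- ID: the law of the free energy does not depend on the shift. -/
def S_ID : Prop := ∀ d : ℕ, 1 ≤ d → ∀ (Ω : Type) [MeasurableSpace Ω] (P : Measure Ω)
  [IsProbabilityMeasure P] (ω : ℕ → (Fin d → ℤ) → Ω → ℝ), IsEnv P ω →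
  ∀ (β : ℝ) (h : Fin d → ℝ) (m : ℕ) (z : Fin d → ℤ) (n : ℕ),
    IdentDistrib (lw ω β h m z n) (lw ω β h 0 0 n) P P

/-- DBLX: doubling with the exponent `ξ`. -/
def S_DBLX : Prop := ∀ d : ℕ, 1 ≤ d → ∀ (Ω : Type) [MeasurableSpace Ω] (P : Measure Ω)
  [IsProbabilityMeasure P] (ω : ℕ → (Fin d → ℤ) → Ω → ℝ), IsEnv P ω →
  (∀ b : ℝ, Integrable (fun x => Real.exp (b * ω 1 0 x)) P) →
  ∀ (β : ℝ) (U : Set (Fin d → ℝ)) (ξ α C0 : ℝ), 0 < ξ → 0 < α → Conc P ω β U ξ α C0 →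
  ∃ C : ℝ, ∀ h ∈ U, ∀ m : ℕ, 1 ≤ m →
    free P ω β h (2 * m) ≤ 2 * free P ω β h m + C * (m : ℝ) ^ ξ * Real.log (m + 1)

/-- RATEX: the limit and the rate of convergence with the exponent `ξ`. -/
def S_RATEX : Prop := ∀ d : ℕ, 1 ≤ d → ∀ (Ω : Type) [MeasurableSpace Ω] (P : Measure Ω)
  [IsProbabilityMeasure P] (ω : ℕ → (Fin d → ℤ) → Ω → ℝ), IsEnv P ω →
  (∀ b : ℝ, Integrable (fun x => Real.exp (b * ω 1 0 x)) P) →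
  ∀ β : ℝ, ∃ φ : (Fin d → ℝ) → ℝ, ConvexOn ℝ Set.univ φ ∧
    (∀ (h : Fin d → ℝ) (n : ℕ), free P ω β h n ≤ n * φ h) ∧
    ∀ (U : Set (Fin d → ℝ)) (ξ α C0 : ℝ), 0 < ξ → ξ < 1 → 0 < α → Conc P ω β U ξ α C0 →
    ∃ C : ℝ, ∀ h ∈ U, ∀ n : ℕ,
      n * φ h ≤ free P ω β h n + C * (n : ℝ) ^ ξ * Real.log (n + 1)

/-- UPX: for almost every drift the wandering exponent is at most `(1+ξ)/2` if the free energy is
concentrated on the scale `n^ξ` for all drifts near `h`. -/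
def S_UPX : Prop := ∀ d : ℕ, 1 ≤ d → ∀ (Ω : Type) [MeasurableSpace Ω] (P : Measure Ω)
  [IsProbabilityMeasure P] (ω : ℕ → (Fin d → ℤ) → Ω → ℝ), IsEnv P ω →
  (∀ b : ℝ, Integrable (fun x => Real.exp (b * ω 1 0 x)) P) → ∀ β : ℝ,
  ∀ᵐ h : Fin d → ℝ, ∃ v : Fin d → ℝ, ∀ U : Set (Fin d → ℝ), IsOpen U → h ∈ U →
    ∀ ξ α C0 : ℝ, 0 < ξ → ξ < 1 → 0 < α → Conc P ω β U ξ α C0 →
    ∀ b c : ℝ, (1 + ξ) / 2 < b → b ≤ 1 → c < 2 * b - 1 →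
    ∀ᵐ x ∂P, ∀ᶠ n : ℕ in atTop,
      1 - Real.exp (-(n : ℝ) ^ c) ≤ prob β h (fun i y => ω i y x) n
        {w | ∀ i : ℕ, i ≤ n → ∀ k, |(pos w i k : ℝ) - i * v k| ≤ (n : ℝ) ^ b}

end Pool.Agent.N662.SE
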