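import Pool.Agent.N662.SE.Up
import Pool.Agent.N662.SE.Stm2

/-!
# Directed polymers on `ℤ^d` with a drift: the exponents

The walk (`Step`, `pos`) and the energy are defined in `Pool/Agent/TH967/DP/Defs.lean`.
-/

set_option autoImplicit false

open MeasureTheory ProbabilityTheory Filter Topology

namespace Pool.Agent.N662.SE

open TH967.DP (Step pos energy)

variable {d : ℕ}

/-- The weight `exp (β ∑_{i=1}^n η(i, S_i) + h · S_n)` of a walk of `n` steps in `ℤ^d`. -/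
noncomputable def weight (β : ℝ) (h : Fin d → ℝ) (η : ℕ → (Fin d → ℤ) → ℝ) {n : ℕ}
    (w : Fin n → Step d) : ℝ :=
  Real.exp (β * energy η w + ∑ k, h k * (pos w n k : ℝ))

/-- The polymer measure `P_n` with inverse temperature `β` and drift `h ∈ ℝ^d` in the environment
`η`. For `h = 0` it is the law of the simple random walk tilted by the environment. -/
noncomputable def polymer (β : ℝ) (h : Fin d → ℝ) (η : ℕ → (Fin d → ℤ) → ℝ) (n : ℕ)
    (A : Set (Fin n → Step d)) : ℝ :=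
  (∑ w : Fin n → Step d, A.indicator (weight β h η) w) / ∑ w : Fin n → Step d, weight β h η w

/-- `log Z_n`, where `Z_n = E exp (β ∑_{i=1}^n η(i, S_i) + h · S_n)` is the average over the
`(2d)^n` walks of `n` steps. -/
noncomputable def logZ (β : ℝ) (h : Fin d → ℝ) (η : ℕ → (Fin d → ℤ) → ℝ) (n : ℕ) : ℝ :=
  Real.log ((∑ w : Fin n → Step d, weight β h η w) / (2 * (d : ℝ)) ^ n)

/-- The wandering exponent of the polymer with drift `h` around the line of slope `v`: the infimum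
of the `b > 0` such that `E (liminf_n P_n (max_{i ≤ n} ‖S_i - i v‖ ≤ n^b)) = 1` (`dev v w i` is the
Euclidean norm of `S_i - i v`). -/
noncomputable def wander {Ω : Type} [MeasurableSpace Ω] (P : Measure Ω)
    (ω : ℕ → (Fin d → ℤ) → Ω → ℝ) (β : ℝ) (h v : Fin d → ℝ) : ℝ :=
  sInf {b : ℝ | 0 < b ∧ ∫ x, liminf (fun n : ℕ => polymer β h (fun i y => ω i y x) n
    {w | ∀ i ≤ n, dev v w i ≤ (n : ℝ) ^ b}) atTop ∂P = 1}

/-- The free energy is concentrated on the scale `n^ξ` near the drift `h`: for some neighbourhood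
`U` of `h` and some `α > 0`, `C`, one has `E exp (α |log Z_n - E log Z_n| / n^ξ) ≤ C` for all drifts
`h' ∈ U` and all `n ≥ 1`. -/
def Concentrated {Ω : Type} [MeasurableSpace Ω] (P : Measure Ω)
    (ω : ℕ → (Fin d → ℤ) → Ω → ℝ) (β : ℝ) (h : Fin d → ℝ) (ξ : ℝ) : Prop :=
  ∃ U : Set (Fin d → ℝ), IsOpen U ∧ h ∈ U ∧ ∃ α C : ℝ, 0 < α ∧ ∀ h' ∈ U, ∀ n : ℕ, 1 ≤ n →
    ∫⁻ x, ENNReal.ofReal (Real.exp (α * (n : ℝ) ^ (-ξ) *
      |logZ β h' (fun i y => ω i y x) n - ∫ x', logZ β h' (fun i y => ω i y x') n ∂P|)) ∂P ≤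
      ENNReal.ofReal C

/-- The upper fluctuation exponent at the drift `h`: the infimum of the `ξ > 0` such that the free
energy is concentrated on the scale `n^ξ` near `h`. -/
noncomputable def chiUp {Ω : Type} [MeasurableSpace Ω] (P : Measure Ω)
    (ω : ℕ → (Fin d → ℤ) → Ω → ℝ) (β : ℝ) (h : Fin d → ℝ) : ℝ :=
  sInf {ξ : ℝ | 0 < ξ ∧ Concentrated P ω β h ξ}

/-- The fluctuation exponent: the supremum of the `t > 0` such that `Var log Z_n ≥ n^(2t)` for all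
large `n`. -/
noncomputable def chi {Ω : Type} [MeasurableSpace Ω] (P : Measure Ω)
    (ω : ℕ → (Fin d → ℤ) → Ω → ℝ) (β : ℝ) (h : Fin d → ℝ) : ℝ :=
  sSup {t : ℝ | 0 < t ∧ ∀ᶠ n : ℕ in atTop,
    (n : ℝ) ^ (2 * t) ≤ variance (fun x => logZ β h (fun i y => ω i y x) n) P}

lemma polymer_eq (β : ℝ) (h : Fin d → ℝ) (η : ℕ → (Fin d → ℤ) → ℝ) (n : ℕ)
    (A : Set (Fin n → Step d)) : polymer β h η n A = prob β h η n A := by
  have h1 : ∀ B : Set (Fin n → Step d), part β h η n B = ∑ w, B.indicator (weight β h η) w :=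
    fun B => rfl
  unfold polymer prob
  rw [h1, h1]
  simp only [Set.indicator_univ]

lemma polymer_nonneg (β : ℝ) (h : Fin d → ℝ) (η : ℕ → (Fin d → ℤ) → ℝ) (n : ℕ)
    (A : Set (Fin n → Step d)) : 0 ≤ polymer β h η n A := by
  rw [polymer_eq]; exact prob_nonneg _ _ _ _

lemma polymer_le_one (hd : 1 ≤ d) (β : ℝ) (h : Fin d → ℝ) (η : ℕ → (Fin d → ℤ) → ℝ) (n : ℕ)
    (A : Set (Fin n → Step d)) : polymer β h η n A ≤ 1 := by
  rw [polymer_eq]; exact prob_le_one hd _ _ _ _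

lemma lw_eq {Ω : Type} (ω : ℕ → (Fin d → ℤ) → Ω → ℝ) (β : ℝ) (h : Fin d → ℝ) (n : ℕ) (x : Ω) :
    lw ω β h 0 0 n x = Real.log (∑ w : Fin n → Step d, weight β h (fun i y => ω i y x) w) := by
  have h1 : (fun (i : ℕ) (y : Fin d → ℤ) => ω (0 + i) (0 + y) x) = fun i y => ω i y x := by
    funext i y
    rw [zero_add, zero_add]
  unfold lw
  rw [h1]
  unfold part
  simp only [Set.indicator_univ]
  rfl

lemma logZ_eq (hd : 1 ≤ d) {Ω : Type} (ω : ℕ → (Fin d → ℤ) → Ω → ℝ) (β : ℝ) (h : Fin d → ℝ)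
    (n : ℕ) (x : Ω) :
    logZ β h (fun i y => ω i y x) n = lw ω β h 0 0 n x - n * Real.log (2 * (d : ℝ)) := by
  rw [lw_eq]
  unfold logZ
  have h1 : (0 : ℝ) < ∑ w : Fin n → Step d, weight β h (fun i y => ω i y x) w := by
    haveI : Nonempty (Fin n → Step d) := ⟨fun _ => (⟨0, hd⟩, true)⟩
    exact Finset.sum_pos (fun w _ => Real.exp_pos _) Finset.univ_nonempty
  have h2 : (0 : ℝ) < 2 * (d : ℝ) := by
    have : (1 : ℝ) ≤ d := by exact_mod_cast hd
    linarith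
  rw [Real.log_div h1.ne' (pow_pos h2 n).ne', Real.log_pow]

lemma integral_logZ (hd : 1 ≤ d) {Ω : Type} [MeasurableSpace Ω] {P : Measure Ω}
    [IsProbabilityMeasure P] {ω : ℕ → (Fin d → ℤ) → Ω → ℝ} {β : ℝ} {h : Fin d → ℝ} {n : ℕ}
    (hi : Integrable (lw ω β h 0 0 n) P) :
    ∫ x, logZ β h (fun i y => ω i y x) n ∂P =
      free P ω β h n - n * Real.log (2 * (d : ℝ)) := by
  simp_rw [logZ_eq hd]
  rw [integral_sub hi (integrable_const _), integral_const]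
  simp [free]

lemma logZ_sub (hd : 1 ≤ d) {Ω : Type} [MeasurableSpace Ω] {P : Measure Ω}
    [IsProbabilityMeasure P] {ω : ℕ → (Fin d → ℤ) → Ω → ℝ} {β : ℝ} {h : Fin d → ℝ} {n : ℕ}
    (hi : Integrable (lw ω β h 0 0 n) P) (x : Ω) :
    logZ β h (fun i y => ω i y x) n - ∫ x', logZ β h (fun i y => ω i y x') n ∂P =
      lw ω β h 0 0 n x - free P ω β h n := by
  rw [logZ_eq hd, integral_logZ hd hi]
  ring

lemma variance_logZ (hd : 1 ≤ d) {Ω : Type} [MeasurableSpace Ω] {P : Measure Ω}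
    [IsProbabilityMeasure P] {ω : ℕ → (Fin d → ℤ) → Ω → ℝ} {β : ℝ} {h : Fin d → ℝ} {n : ℕ}
    (hi : Integrable (lw ω β h 0 0 n) P) :
    variance (fun x => logZ β h (fun i y => ω i y x) n) P =
      ∫ x, (lw ω β h 0 0 n x - free P ω β h n) ^ 2 ∂P := by
  have h1 : AEMeasurable (fun x => logZ β h (fun i y => ω i y x) n) P := by
    simp_rw [logZ_eq hd]
    exact (hi.aestronglyMeasurable.aemeasurable).sub_const _
  rw [variance_eq_integral h1]
  simp_rw [logZ_sub hd hi]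

lemma concentrated_iff (hd : 1 ≤ d) {Ω : Type} [MeasurableSpace Ω] {P : Measure Ω}
    [IsProbabilityMeasure P] {ω : ℕ → (Fin d → ℤ) → Ω → ℝ} {β : ℝ} {h : Fin d → ℝ} {ξ : ℝ}
    (hi : ∀ (h : Fin d → ℝ) (n : ℕ), Integrable (lw ω β h 0 0 n) P) :
    Concentrated P ω β h ξ ↔ ∃ U : Set (Fin d → ℝ), IsOpen U ∧ h ∈ U ∧ ∃ α C : ℝ, 0 < α ∧
      Conc P ω β U ξ α C := by
  unfold Concentrated Conc
  simp_rw [logZ_sub hd (hi _ _)]

/-- the free energy is always concentrated on the scale `n^(1/2)` -/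
lemma conc_half (hc : S_CONC) (hd : 1 ≤ d) {Ω : Type} [MeasurableSpace Ω] {P : Measure Ω}
    [IsProbabilityMeasure P] {ω : ℕ → (Fin d → ℤ) → Ω → ℝ} (he : IsEnv P ω)
    (hexp : ∀ b : ℝ, Integrable (fun x => Real.exp (b * ω 1 0 x)) P) (β : ℝ) :
    Conc P ω β Set.univ (1 / 2) (1 / 4) (2 * Real.exp (mom P ω β)) := by
  intro h _ n hn
  obtain ⟨hmeas, -, -, h1⟩ := hc d hd Ω P ω he hexp β h 0 0 n
  have hn0 : (0 : ℝ) < n := by exact_mod_cast hn
  set l : ℝ := 1 / 4 * (n : ℝ) ^ (-(1 / 2) : ℝ) with hl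
  have hl0 : 0 < l := by
    have := Real.rpow_pos_of_pos hn0 (-(1 / 2))
    positivity
  have hl1 : l ≤ 1 / 4 := by
    have : (n : ℝ) ^ (-(1 / 2) : ℝ) ≤ 1 :=
      Real.rpow_le_one_of_one_le_of_nonpos (by exact_mod_cast hn) (by norm_num)
    linarith
  have hl2 : 16 * mom P ω β * l ^ 2 * n = mom P ω β := by
    have h2 : ((n : ℝ) ^ (-(1 / 2) : ℝ)) ^ 2 * n = 1 := by
      rw [← Real.rpow_natCast, ← Real.rpow_mul hn0.le]
      nth_rewrite 2 [← Real.rpow_one (n : ℝ)]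
      rw [← Real.rpow_add hn0]
      norm_num
    rw [hl]
    calc 16 * mom P ω β * (1 / 4 * (n : ℝ) ^ (-(1 / 2) : ℝ)) ^ 2 * n =
        mom P ω β * (((n : ℝ) ^ (-(1 / 2) : ℝ)) ^ 2 * n) := by ring
      _ = _ := by rw [h2, mul_one]
  have hA := h1 l (by rw [abs_of_pos hl0]; exact hl1)
  have hB := h1 (-l) (by rw [abs_neg, abs_of_pos hl0]; exact hl1)
  rw [neg_sq, hl2] at hB
  rw [hl2] at hA
  have hpt : ∀ x : Ω, ENNReal.ofReal (Real.exp (l * |lw ω β h 0 0 n x - free P ω β h n|)) ≤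
      ENNReal.ofReal (Real.exp (l * (lw ω β h 0 0 n x - free P ω β h n))) +
      ENNReal.ofReal (Real.exp (-l * (lw ω β h 0 0 n x - free P ω β h n))) := by
    intro x
    rw [← ENNReal.ofReal_add (Real.exp_pos _).le (Real.exp_pos _).le]
    apply ENNReal.ofReal_le_ofReal
    rcases abs_cases (lw ω β h 0 0 n x - free P ω β h n) with ⟨h2, _⟩ | ⟨h2, _⟩
    · rw [h2]
      linarith [Real.exp_pos (-l * (lw ω β h 0 0 n x - free P ω β h n))]
    · rw [h2, mul_neg, ← neg_mul]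
      linarith [Real.exp_pos (l * (lw ω β h 0 0 n x - free P ω β h n))]
  calc ∫⁻ x, ENNReal.ofReal (Real.exp (l * |lw ω β h 0 0 n x - free P ω β h n|)) ∂P ≤
      ∫⁻ x, (ENNReal.ofReal (Real.exp (l * (lw ω β h 0 0 n x - free P ω β h n))) +
        ENNReal.ofReal (Real.exp (-l * (lw ω β h 0 0 n x - free P ω β h n)))) ∂P :=
        lintegral_mono hpt
    _ = ∫⁻ x, ENNReal.ofReal (Real.exp (l * (lw ω β h 0 0 n x - free P ω β h n))) ∂P +
        ∫⁻ x, ENNReal.ofReal (Real.exp (-l * (lw ω β h 0 0 n x - free P ω β h n))) ∂P := by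
        apply lintegral_add_left
        exact ENNReal.measurable_ofReal.comp (Real.measurable_exp.comp
          ((hmeas.sub_const _).const_mul _))
    _ ≤ ENNReal.ofReal (Real.exp (mom P ω β)) + ENNReal.ofReal (Real.exp (mom P ω β)) :=
        add_le_add hA hB
    _ = ENNReal.ofReal (2 * Real.exp (mom P ω β)) := by
        rw [← ENNReal.ofReal_add (Real.exp_pos _).le (Real.exp_pos _).le]
        congr 1
        ring

lemma concentrated_half (hc : S_CONC) (hd : 1 ≤ d) {Ω : Type} [MeasurableSpace Ω] {P : Measure Ω}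
    [IsProbabilityMeasure P] {ω : ℕ → (Fin d → ℤ) → Ω → ℝ} (he : IsEnv P ω)
    (hexp : ∀ b : ℝ, Integrable (fun x => Real.exp (b * ω 1 0 x)) P) (β : ℝ) (h : Fin d → ℝ) :
    Concentrated P ω β h (1 / 2) := by
  rw [concentrated_iff hd fun h n => (hc d hd Ω P ω he hexp β h 0 0 n).2.1]
  exact ⟨Set.univ, isOpen_univ, Set.mem_univ _, 1 / 4, _, by norm_num,
    conc_half hc hd he hexp β⟩

lemma chiUp_le_half (hc : S_CONC) (hd : 1 ≤ d) {Ω : Type} [MeasurableSpace Ω] {P : Measure Ω}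
    [IsProbabilityMeasure P] {ω : ℕ → (Fin d → ℤ) → Ω → ℝ} (he : IsEnv P ω)
    (hexp : ∀ b : ℝ, Integrable (fun x => Real.exp (b * ω 1 0 x)) P) (β : ℝ) (h : Fin d → ℝ) :
    chiUp P ω β h ≤ 1 / 2 :=
  csInf_le ⟨0, fun _ hξ => hξ.1.le⟩ ⟨by norm_num, concentrated_half hc hd he hexp β h⟩

/-- confinement gives an upper bound for the wandering exponent -/
lemma wander_le (hd : 1 ≤ d) {Ω : Type} [MeasurableSpace Ω] {P : Measure Ω}
    [IsProbabilityMeasure P] {ω : ℕ → (Fin d → ℤ) → Ω → ℝ} {β : ℝ} {h v : Fin d → ℝ} {b : ℝ}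
    (hb : 0 < b) {c : ℝ} (hc : 0 < c)
    (H : ∀ᵐ x ∂P, ∀ᶠ n : ℕ in atTop,
      1 - Real.exp (-(n : ℝ) ^ c) ≤ polymer β h (fun i y => ω i y x) n
        {w | ∀ i : ℕ, i ≤ n → dev v w i ≤ (n : ℝ) ^ b}) : wander P ω β h v ≤ b := by
  apply csInf_le ⟨0, fun _ hξ => hξ.1.le⟩
  refine ⟨hb, ?_⟩
  have h1 : ∀ᵐ x ∂P, liminf (fun n : ℕ => polymer β h (fun i y => ω i y x) n
      {w | ∀ i ≤ n, dev v w i ≤ (n : ℝ) ^ b}) atTop = 1 := by
    filter_upwards [H] with x hx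
    apply Tendsto.liminf_eq
    have h5 : Tendsto (fun n : ℕ => (n : ℝ) ^ c) atTop atTop :=
      (tendsto_rpow_atTop hc).comp tendsto_natCast_atTop_atTop
    have h6 := Real.tendsto_exp_neg_atTop_nhds_zero.comp h5
    have h7 : Tendsto (fun n : ℕ => 1 - Real.exp (-(n : ℝ) ^ c)) atTop (𝓝 1) := by
      have := h6.const_sub 1
      rw [sub_zero] at this
      exact this
    exact tendsto_of_tendsto_of_tendsto_of_le_of_le' h7 tendsto_const_nhds hx
      (Eventually.of_forall fun n => polymer_le_one hd _ _ _ _ _)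
  rw [integral_congr_ae h1]
  simp

end Pool.Agent.N662.SE
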