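import Pool.Agent.N662.SE.Exp
import Pool.Agent.N662.SE.Prob
import Pool.Agent.N662.SD.Main

/-!
# Project SE: relations between the exponents
-/

set_option autoImplicit false

open MeasureTheory ProbabilityTheory Filter Topology

namespace Pool.Agent.N662.SE

open TH967.DP (Step pos energy)

variable {d : ℕ}

/-- the upper bound with the Euclidean norm, general exponent -/
theorem up_euclid' {Ω : Type} [MeasurableSpace Ω] {P : Measure Ω}
    {ω : ℕ → (Fin d → ℤ) → Ω → ℝ} {β b₀ : ℝ} {h v : Fin d → ℝ}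
    (hup : ∀ b c : ℝ, b₀ < b → b ≤ 1 → c < 2 * b - 1 →
      ∀ᵐ x ∂P, ∀ᶠ n : ℕ in atTop,
        1 - Real.exp (-(n : ℝ) ^ c) ≤ prob β h (fun i y => ω i y x) n
          {w | ∀ i : ℕ, i ≤ n → ∀ k, |(pos w i k : ℝ) - i * v k| ≤ (n : ℝ) ^ b})
    (b c : ℝ) (hb : b₀ < b) (hb1 : b ≤ 1) (hc : c < 2 * b - 1) :
    ∀ᵐ x ∂P, ∀ᶠ n : ℕ in atTop,
      1 - Real.exp (-(n : ℝ) ^ c) ≤ polymer β h (fun i y => ω i y x) n
        {w | ∀ i : ℕ, i ≤ n → dev v w i ≤ (n : ℝ) ^ b} := by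
  obtain ⟨b', hb'1, hb'2⟩ := exists_between (max_lt hb (by linarith : (c + 1) / 2 < b))
  have hb3 := max_lt_iff.1 hb'1
  filter_upwards [hup b' c hb3.1 (by linarith) (by linarith)] with x hx
  filter_upwards [hx, pow_dom' hb'2 d] with n hn hn2
  rw [polymer_eq]
  refine hn.trans (prob_mono _ _ _ ?_)
  intro w hw i hi
  exact (dev_le_of (Real.rpow_nonneg (Nat.cast_nonneg n) _) (hw i hi)).trans hn2

/-- the scaling inequality at a drift where the upper bounds hold -/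
theorem scaling (hc : S_CONC) (hd : 1 ≤ d) {Ω : Type} [MeasurableSpace Ω] {P : Measure Ω}
    [IsProbabilityMeasure P] {ω : ℕ → (Fin d → ℤ) → Ω → ℝ} (he : IsEnv P ω)
    (hexp : ∀ b : ℝ, Integrable (fun x => Real.exp (b * ω 1 0 x)) P) {β : ℝ} {h v : Fin d → ℝ}
    (hup : ∀ ξ : ℝ, 0 < ξ → ξ < 1 → Concentrated P ω β h ξ → ∀ b c : ℝ, (1 + ξ) / 2 < b →
      b ≤ 1 → c < 2 * b - 1 → ∀ᵐ x ∂P, ∀ᶠ n : ℕ in atTop,
        1 - Real.exp (-(n : ℝ) ^ c) ≤ polymer β h (fun i y => ω i y x) n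
          {w | ∀ i : ℕ, i ≤ n → dev v w i ≤ (n : ℝ) ^ b}) :
    2 * wander P ω β h v - 1 ≤ chiUp P ω β h := by
  have key : ∀ ξ : ℝ, 0 < ξ → ξ < 1 → Concentrated P ω β h ξ →
      wander P ω β h v ≤ (1 + ξ) / 2 := by
    intro ξ hξ0 hξ1 hξ
    by_contra hcon
    push Not at hcon
    obtain ⟨b, hb1, hb2⟩ := exists_between (lt_min hcon (by linarith : (1 + ξ) / 2 < 1))
    have hb3 := lt_min_iff.1 hb2
    have h1 := wander_le hd (by linarith : 0 < b) (by linarith : (0 : ℝ) < (2 * b - 1) / 2)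
      (hup ξ hξ0 hξ1 hξ b ((2 * b - 1) / 2) hb1 hb3.2.le (by linarith))
    linarith [hb3.1]
  apply le_csInf
  · exact ⟨1 / 2, by norm_num, concentrated_half hc hd he hexp β h⟩
  · rintro ξ ⟨hξ0, hξ⟩
    rcases lt_or_ge ξ 1 with h1 | h1
    · have := key ξ hξ0 h1 hξ
      linarith
    · have := key (1 / 2) (by norm_num) (by norm_num) (concentrated_half hc hd he hexp β h)
      linarith

lemma abs_le_dev (v : Fin d → ℝ) {n : ℕ} (w : Fin n → Step d) (i : ℕ) (k : Fin d) :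
    |(pos w i k : ℝ) - i * v k| ≤ dev v w i := by
  unfold dev
  apply Real.le_sqrt_of_sq_le
  rw [sq_abs]
  exact Finset.single_le_sum (f := fun k => ((pos w i k : ℝ) - i * v k) ^ 2)
    (fun _ _ => sq_nonneg _) (Finset.mem_univ k)

lemma dev_le (v : Fin d → ℝ) {n : ℕ} (w : Fin n → Step d) (i : ℕ) (hi : i ≤ n) :
    dev v w i ≤ n * ∑ k, (1 + |v k|) := by
  have h0 : ∀ k, |(pos w i k : ℝ) - i * v k| ≤ n * (1 + |v k|) := by
    intro k
    have h5 : |(pos w i k : ℝ)| ≤ n := by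
      exact_mod_cast pos_abs w i k
    have h6 : |(i : ℝ) * v k| ≤ n * |v k| := by
      rw [abs_mul, Nat.abs_cast]
      exact mul_le_mul_of_nonneg_right (by exact_mod_cast hi) (abs_nonneg _)
    calc |(pos w i k : ℝ) - i * v k| ≤ |(pos w i k : ℝ)| + |(i : ℝ) * v k| := abs_sub _ _
      _ ≤ n * (1 + |v k|) := by linarith
  unfold dev
  apply Real.sqrt_le_iff.2
  refine ⟨by positivity, ?_⟩
  have h := Finset.sum_sq_le_sq_sum_of_nonneg (s := Finset.univ)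
    (f := fun k => |(pos w i k : ℝ) - i * v k|) (fun _ _ => abs_nonneg _)
  simp only [sq_abs] at h
  refine h.trans ?_
  apply pow_le_pow_left₀ (Finset.sum_nonneg (fun _ _ => abs_nonneg _))
  rw [Finset.mul_sum]
  exact Finset.sum_le_sum fun k _ => h0 k

lemma polymer_mono (β : ℝ) (h : Fin d → ℝ) (η : ℕ → (Fin d → ℤ) → ℝ) {n : ℕ}
    {A B : Set (Fin n → Step d)} (hAB : A ⊆ B) : polymer β h η n A ≤ polymer β h η n B := by
  rw [polymer_eq, polymer_eq]; exact prob_mono _ _ _ hAB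

/-- the exponent 2 is in the set defining the wandering exponent -/
lemma two_mem (hd : 1 ≤ d) {Ω : Type} [MeasurableSpace Ω] {P : Measure Ω}
    [IsProbabilityMeasure P] (ω : ℕ → (Fin d → ℤ) → Ω → ℝ) (β : ℝ) (h v : Fin d → ℝ) :
    (2 : ℝ) ∈ {b : ℝ | 0 < b ∧ ∫ x, liminf (fun n : ℕ => polymer β h (fun i y => ω i y x) n
      {w | ∀ i ≤ n, dev v w i ≤ (n : ℝ) ^ b}) atTop ∂P = 1} := by
  refine ⟨by norm_num, ?_⟩
  have h2 : ∀ x : Ω, liminf (fun n : ℕ => polymer β h (fun i y => ω i y x) n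
      {w | ∀ i ≤ n, dev v w i ≤ (n : ℝ) ^ (2 : ℝ)}) atTop = 1 := by
    intro x
    have h3 : Tendsto (fun n : ℕ => polymer β h (fun i y => ω i y x) n
        {w | ∀ i ≤ n, dev v w i ≤ (n : ℝ) ^ (2 : ℝ)}) atTop (𝓝 1) := by
      apply tendsto_const_nhds.congr'
      filter_upwards [tendsto_natCast_atTop_atTop.eventually_ge_atTop (∑ k, (1 + |v k|))]
        with n hn
      have h4 : {w : Fin n → Step d | ∀ i ≤ n, dev v w i ≤ (n : ℝ) ^ (2 : ℝ)} =
          Set.univ := by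
        apply Set.eq_univ_of_forall
        intro w i hi
        have h7 : (n : ℝ) ^ (2 : ℝ) = n * n := by
          rw [Real.rpow_two, sq]
        rw [h7]
        exact (dev_le v w i hi).trans (mul_le_mul_of_nonneg_left hn (Nat.cast_nonneg n))
      rw [h4, polymer_eq, prob_univ hd]
    exact h3.liminf_eq
  simp_rw [h2]
  simp

lemma measurable_polymer (β : ℝ) (h : Fin d → ℝ) {n : ℕ} (A : Set (Fin n → Step d)) {Ω : Type}
    [MeasurableSpace Ω] {ω : ℕ → (Fin d → ℤ) → Ω → ℝ} (hm : ∀ i y, Measurable (ω i y)) :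
    Measurable (fun x => polymer β h (fun i y => ω i y x) n A) := by
  simp_rw [polymer_eq]
  exact measurable_prob β h A hm

/-- if the exponent `b` is in the set then the polymer is confined -/
lemma conf_of_mem (hd : 1 ≤ d) {Ω : Type} [MeasurableSpace Ω] {P : Measure Ω}
    [IsProbabilityMeasure P] {ω : ℕ → (Fin d → ℤ) → Ω → ℝ} (hm : ∀ i y, Measurable (ω i y))
    {β b : ℝ} {h v : Fin d → ℝ}
    (hb : ∫ x, liminf (fun n : ℕ => polymer β h (fun i y => ω i y x) n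
      {w | ∀ i ≤ n, dev v w i ≤ (n : ℝ) ^ b}) atTop ∂P = 1) :
    ∀ᵐ x ∂P, ∀ᶠ n : ℕ in atTop, 1 / 2 ≤ polymer β h (fun i y => ω i y x) n
      {w | ∀ i ≤ n, dev v w i ≤ (n : ℝ) ^ b} := by
  set f : Ω → ℝ := fun x => liminf (fun n : ℕ => polymer β h (fun i y => ω i y x) n
      {w | ∀ i ≤ n, dev v w i ≤ (n : ℝ) ^ b}) atTop with hf
  have hbdd : ∀ x, IsBoundedUnder (· ≤ ·) atTop (fun n : ℕ =>
      polymer β h (fun i y => ω i y x) n {w | ∀ i ≤ n, dev v w i ≤ (n : ℝ) ^ b}) := fun x =>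
    ⟨1, by
      rw [eventually_map]
      exact Eventually.of_forall fun n => polymer_le_one hd _ _ _ _ _⟩
  have hbdd' : ∀ x, IsBoundedUnder (· ≥ ·) atTop (fun n : ℕ =>
      polymer β h (fun i y => ω i y x) n {w | ∀ i ≤ n, dev v w i ≤ (n : ℝ) ^ b}) := fun x =>
    ⟨0, by
      rw [eventually_map]
      exact Eventually.of_forall fun n => polymer_nonneg _ _ _ _ _⟩
  have hf1 : ∀ x, f x ≤ 1 := fun x =>
    liminf_le_of_frequently_le
      (Eventually.of_forall fun n => polymer_le_one hd _ _ _ _ _).frequently (hbdd' x)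
  have hf0 : ∀ x, 0 ≤ f x := fun x =>
    le_liminf_of_le (hbdd x).isCoboundedUnder_ge
      (Eventually.of_forall fun n => polymer_nonneg _ _ _ _ _)
  have hfm : Measurable f := Measurable.liminf fun n => measurable_polymer β h _ hm
  have hfi : Integrable f P := by
    apply (integrable_const (1 : ℝ)).mono' hfm.aestronglyMeasurable
    refine Eventually.of_forall fun x => ?_
    rw [Real.norm_eq_abs, abs_of_nonneg (hf0 x)]
    exact hf1 x
  have h1 : ∫ x, (1 - f x) ∂P = 0 := by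
    rw [integral_sub (integrable_const _) hfi]
    simp only [integral_const, probReal_univ, one_smul]
    linarith
  have h2 : ∀ᵐ x ∂P, 1 - f x = 0 := by
    have := (integral_eq_zero_iff_of_nonneg (fun x => sub_nonneg.2 (hf1 x))
      ((integrable_const _).sub hfi)).1 h1
    exact this
  filter_upwards [h2] with x hx
  have h3 : (1 : ℝ) / 2 < f x := by linarith
  exact (eventually_lt_of_lt_liminf h3 (hbdd' x)).mono fun n hn => hn.le

/-- the variance bound from almost sure confinement, `d = 1` -/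
lemma var_of_conf (ac : Pool.Agent.N662.SD.S_AC) (hc : S_CONC) (hvar : S_VAR) {Ω : Type}
    [MeasurableSpace Ω] {P : Measure Ω}
    [IsProbabilityMeasure P] {ω : ℕ → (Fin 1 → ℤ) → Ω → ℝ} (he : IsEnv P ω)
    (hexp : ∀ b : ℝ, Integrable (fun x => Real.exp (b * ω 1 0 x)) P)
    (hnc : ¬ ∃ c : ℝ, ∀ᵐ x ∂P, ω 1 0 x = c) {β : ℝ} (hβ : 0 < β) {h v : Fin 1 → ℝ} {b : ℝ}
    (hb0 : 0 ≤ b) (hb1 : b < 1)
    (hconf : ∀ᵐ x ∂P, ∀ᶠ n : ℕ in atTop, 1 / 2 ≤ polymer β h (fun i y => ω i y x) n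
      {w | ∀ i ≤ n, dev v w i ≤ (n : ℝ) ^ b}) {t : ℝ} (ht : t < (1 - b) / 2) :
    ∀ᶠ n : ℕ in atTop, (n : ℝ) ^ (2 * t) ≤
      variance (fun x => logZ β h (fun i y => ω i y x) n) P := by
  have h1 : ∀ᵐ x ∂P, ∀ᶠ n : ℕ in atTop, x ∈ {x | 1 / 2 ≤ prob β h (fun i y => ω i y x) n
      {w | ∀ i : ℕ, i ≤ n → ∀ k, |(pos w i k : ℝ) - i * v k| ≤ (n : ℝ) ^ b}} := by
    filter_upwards [hconf] with x hx
    filter_upwards [hx] with n hn
    rw [polymer_eq] at hn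
    refine hn.trans (prob_mono _ _ _ ?_)
    intro w hw i hi k
    exact (abs_le_dev v w i k).trans (hw i hi)
  have h2 := hvar ac Ω P ω he hexp hnc β hβ h v b hb0 hb1
    (Pool.Agent.N662.SD.ev_large h1) t ht
  filter_upwards [h2] with n hn
  rw [variance_logZ le_rfl ((hc 1 le_rfl Ω P ω he hexp β h 0 0 n).2.1)]
  exact hn

/-- upper bound of the variance -/
lemma var_le (hc : S_CONC) (hd : 1 ≤ d) {Ω : Type} [MeasurableSpace Ω] {P : Measure Ω}
    [IsProbabilityMeasure P] {ω : ℕ → (Fin d → ℤ) → Ω → ℝ} (he : IsEnv P ω)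
    (hexp : ∀ b : ℝ, Integrable (fun x => Real.exp (b * ω 1 0 x)) P) {β : ℝ} {h : Fin d → ℝ}
    {ξ : ℝ} (hξ : Concentrated P ω β h ξ) :
    ∃ C : ℝ, ∀ n : ℕ, 1 ≤ n →
      variance (fun x => logZ β h (fun i y => ω i y x) n) P ≤ C * (n : ℝ) ^ (2 * ξ) := by
  rw [concentrated_iff hd fun h n => (hc d hd Ω P ω he hexp β h 0 0 n).2.1] at hξ
  obtain ⟨U, _, hU, α, C0, hα, hC⟩ := hξ
  refine ⟨2 * |C0| / α ^ 2, fun n hn => ?_⟩
  have hn0 : (0 : ℝ) < n := by exact_mod_cast hn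
  obtain ⟨hmeas, hint, -, -⟩ := hc d hd Ω P ω he hexp β h 0 0 n
  rw [variance_logZ hd hint]
  set l : ℝ := α * (n : ℝ) ^ (-ξ) with hl
  have hl0 : 0 < l := mul_pos hα (Real.rpow_pos_of_pos hn0 _)
  have h1 := hC h hU n hn
  rw [← hl] at h1
  set X : Ω → ℝ := fun x => lw ω β h 0 0 n x - free P ω β h n with hX
  have hXm : Measurable X := hmeas.sub_const _
  have hpt : ∀ x, X x ^ 2 ≤ 2 / l ^ 2 * Real.exp (l * |X x|) := by
    intro x
    have h2 : (l * |X x|) ^ 2 / 2 ≤ Real.exp (l * |X x|) := by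
      have h3 := Real.quadratic_le_exp_of_nonneg (by positivity : 0 ≤ l * |X x|)
      have h4 : 0 ≤ l * |X x| := by positivity
      linarith
    rw [mul_pow, sq_abs] at h2
    rw [div_mul_eq_mul_div, le_div_iff₀ (by positivity)]
    nlinarith
  have hexpm : Measurable fun x => Real.exp (l * |X x|) :=
    Real.measurable_exp.comp ((hXm.abs).const_mul l)
  have hexpi : Integrable (fun x => Real.exp (l * |X x|)) P := by
    refine ⟨hexpm.aestronglyMeasurable, ?_⟩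
    rw [hasFiniteIntegral_iff_norm]
    refine lt_of_le_of_lt (le_of_eq ?_) (lt_of_le_of_lt h1 ENNReal.ofReal_lt_top)
    apply lintegral_congr
    intro x
    rw [Real.norm_eq_abs, abs_of_pos (Real.exp_pos _)]
  have hexpl : ∫ x, Real.exp (l * |X x|) ∂P ≤ |C0| := by
    rw [integral_eq_lintegral_of_nonneg_ae (Eventually.of_forall fun x => (Real.exp_pos _).le)
      hexpm.aestronglyMeasurable]
    refine (ENNReal.toReal_mono ENNReal.ofReal_ne_top h1).trans ?_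
    rw [ENNReal.toReal_ofReal']
    exact max_le (le_abs_self _) (abs_nonneg _)
  calc ∫ x, X x ^ 2 ∂P ≤ ∫ x, 2 / l ^ 2 * Real.exp (l * |X x|) ∂P := by
        apply integral_mono_of_nonneg (Eventually.of_forall fun x => sq_nonneg _)
          (hexpi.const_mul _) (Eventually.of_forall hpt)
    _ = 2 / l ^ 2 * ∫ x, Real.exp (l * |X x|) ∂P := integral_const_mul _ _
    _ ≤ 2 / l ^ 2 * |C0| := mul_le_mul_of_nonneg_left hexpl (by positivity)
    _ = 2 * |C0| / α ^ 2 * (n : ℝ) ^ (2 * ξ) := by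
        have h5 : l ^ 2 * (n : ℝ) ^ (2 * ξ) = α ^ 2 := by
          rw [hl, mul_pow, ← Real.rpow_natCast ((n : ℝ) ^ (-ξ)) 2, ← Real.rpow_mul hn0.le,
            mul_assoc, ← Real.rpow_add hn0]
          have : -ξ * ((2 : ℕ) : ℝ) + 2 * ξ = 0 := by push_cast; ring
          rw [this, Real.rpow_zero, mul_one]
        rw [← h5]
        have h6 : (0 : ℝ) < (n : ℝ) ^ (2 * ξ) := Real.rpow_pos_of_pos hn0 _
        field_simp

lemma exp_le_of_var (hc : S_CONC) (hd : 1 ≤ d) {Ω : Type} [MeasurableSpace Ω] {P : Measure Ω}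
    [IsProbabilityMeasure P] {ω : ℕ → (Fin d → ℤ) → Ω → ℝ} (he : IsEnv P ω)
    (hexp : ∀ b : ℝ, Integrable (fun x => Real.exp (b * ω 1 0 x)) P) {β : ℝ} {h : Fin d → ℝ}
    {ξ : ℝ} (hξ : Concentrated P ω β h ξ) {t : ℝ}
    (ht : ∀ᶠ n : ℕ in atTop, (n : ℝ) ^ (2 * t) ≤
      variance (fun x => logZ β h (fun i y => ω i y x) n) P) : t ≤ ξ := by
  by_contra hcon
  push Not at hcon
  obtain ⟨C, hC⟩ := var_le hc hd he hexp hξ
  have h1 := pow_dom' (by linarith : 2 * ξ < 2 * t) (C + 1)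
  obtain ⟨n, hn1, hn2, hn3⟩ := (ht.and (h1.and (eventually_ge_atTop 1))).exists
  have hn0 : (0 : ℝ) < n := by exact_mod_cast hn3
  have h2 := hC n hn3
  have h3 : (0 : ℝ) < (n : ℝ) ^ (2 * ξ) := Real.rpow_pos_of_pos hn0 _
  linarith

lemma chi_le_chiUp (hc : S_CONC) (hd : 1 ≤ d) {Ω : Type} [MeasurableSpace Ω] {P : Measure Ω}
    [IsProbabilityMeasure P] {ω : ℕ → (Fin d → ℤ) → Ω → ℝ} (he : IsEnv P ω)
    (hexp : ∀ b : ℝ, Integrable (fun x => Real.exp (b * ω 1 0 x)) P) (β : ℝ) (h : Fin d → ℝ) :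
    chi P ω β h ≤ chiUp P ω β h := by
  apply le_csInf
  · exact ⟨1 / 2, by norm_num, concentrated_half hc hd he hexp β h⟩
  · rintro ξ ⟨hξ0, hξ⟩
    exact Real.sSup_le (fun t ht => exp_le_of_var hc hd he hexp hξ ht.2) hξ0.le

lemma le_chi (hc : S_CONC) (hd : 1 ≤ d) {Ω : Type} [MeasurableSpace Ω] {P : Measure Ω}
    [IsProbabilityMeasure P] {ω : ℕ → (Fin d → ℤ) → Ω → ℝ} (he : IsEnv P ω)
    (hexp : ∀ b : ℝ, Integrable (fun x => Real.exp (b * ω 1 0 x)) P) {β : ℝ} {h : Fin d → ℝ}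
    {s : ℝ} (H : ∀ t, 0 < t → t < s → ∀ᶠ n : ℕ in atTop, (n : ℝ) ^ (2 * t) ≤
      variance (fun x => logZ β h (fun i y => ω i y x) n) P) : s ≤ chi P ω β h := by
  have hb : BddAbove {t : ℝ | 0 < t ∧ ∀ᶠ n : ℕ in atTop,
      (n : ℝ) ^ (2 * t) ≤ variance (fun x => logZ β h (fun i y => ω i y x) n) P} :=
    ⟨1 / 2, fun t ht => exp_le_of_var hc hd he hexp (concentrated_half hc hd he hexp β h) ht.2⟩
  have h0 : 0 ≤ chi P ω β h := Real.sSup_nonneg fun t ht => ht.1.le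
  by_contra hcon
  push Not at hcon
  obtain ⟨t, ht1, ht2⟩ := exists_between hcon
  have h1 : t ≤ chi P ω β h := le_csSup hb ⟨by linarith, H t (by linarith) ht2⟩
  linarith

/-- the relation `χ ≥ (1-ν)/2` in dimension one -/
lemma chi_ge (ac : Pool.Agent.N662.SD.S_AC) (hc : S_CONC) (hvar : S_VAR) {Ω : Type}
    [MeasurableSpace Ω] {P : Measure Ω}
    [IsProbabilityMeasure P] {ω : ℕ → (Fin 1 → ℤ) → Ω → ℝ} (he : IsEnv P ω)
    (hexp : ∀ b : ℝ, Integrable (fun x => Real.exp (b * ω 1 0 x)) P)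
    (hnc : ¬ ∃ c : ℝ, ∀ᵐ x ∂P, ω 1 0 x = c) {β : ℝ} (hβ : 0 < β) (h v : Fin 1 → ℝ) :
    (1 - wander P ω β h v) / 2 ≤ chi P ω β h := by
  apply le_chi hc le_rfl he hexp
  intro t ht0 ht
  have h1 : wander P ω β h v < 1 - 2 * t := by linarith
  obtain ⟨b, ⟨hb0, hb⟩, hb1⟩ := exists_lt_of_csInf_lt ⟨2, two_mem le_rfl ω β h v⟩ h1
  exact var_of_conf ac hc hvar he hexp hnc hβ hb0.le (by linarith)
    (conf_of_mem le_rfl he.meas hb) (by linarith)

end Pool.Agent.N662.SE
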