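import Pool.Agent.N662.SE.Prob
import Pool.Agent.N662.SD.Main

/-!
# Project SE: assembly of the lower bound in dimension `d`
-/

set_option autoImplicit false

open MeasureTheory ProbabilityTheory Filter Topology

namespace Pool.Agent.N662.SE

open TH967.DP
open Pool.Agent.N662.SD (pow_dom gap inter_ge ev_large)

variable {d : ℕ}

/-- the event that the polymer is confined -/
def ev {Ω : Type} (ω : ℕ → (Fin d → ℤ) → Ω → ℝ) (β θ a c : ℝ) (v h : Fin d → ℝ) (n : ℕ) : Set Ω :=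
  {x | Real.exp (-(n : ℝ) ^ c) < prob β h (fun i y => ω i y x) n (tube θ v ((n : ℝ) ^ a) n)}

lemma measurableSet_ev {Ω : Type} [MeasurableSpace Ω] {ω : ℕ → (Fin d → ℤ) → Ω → ℝ}
    (hm : ∀ i y, Measurable (ω i y)) (β θ a c : ℝ) (v h : Fin d → ℝ) (n : ℕ) :
    MeasurableSet (ev ω β θ a c v h n) :=
  measurableSet_lt measurable_const (measurable_prob β h _ hm)

/-- the exceptional slopes -/
def bad {Ω : Type} [MeasurableSpace Ω] (P : Measure Ω) (ω : ℕ → (Fin d → ℤ) → Ω → ℝ)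
    (β θ a c : ℝ) : Set (Fin d → ℝ) :=
  {v | ∃ h : Fin d → ℝ, ∀ᶠ n : ℕ in atTop, 3 / 4 ≤ P.real (ev ω β θ a c v h n)}

lemma mono_of (hd : 1 ≤ d) {Ω : Type} [MeasurableSpace Ω] {P : Measure Ω} [IsProbabilityMeasure P]
    {ω : ℕ → (Fin d → ℤ) → Ω → ℝ} (he : IsEnv P ω) {β θ a c : ℝ} {v v' h h' : Fin d → ℝ}
    (hθ : θ ≤ 1) (ha : a < 1) (hc : c < 1)
    (h1 : ∀ᶠ n : ℕ in atTop, 3 / 4 ≤ P.real (ev ω β θ a c v h n))
    (h2 : ∀ᶠ n : ℕ in atTop, 3 / 4 ≤ P.real (ev ω β θ a c v' h' n)) :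
    0 ≤ ∑ k, (h' k - h k) * (v' k - v k) := by
  by_contra hcon
  push Not at hcon
  set s := ∑ k, (h' k - h k) * (v' k - v k) with hs
  set l := ∑ k, |h' k - h k| with hl
  have hl0 : 0 ≤ l := Finset.sum_nonneg fun _ _ => abs_nonneg _
  have hδ : 0 < -s := by linarith
  have e1 := pow_dom ha (4 * (2 * l) / (-s))
  have e2 := pow_dom hc (4 * 2 / (-s))
  obtain ⟨n, hn1, hn2, hn3, hn4, hn0⟩ := (h1.and (h2.and (e1.and (e2.and
    (eventually_gt_atTop 0))))).exists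
  have hn5 : (0 : ℝ) < n := by exact_mod_cast hn0
  have h3 := inter_ge (measurableSet_ev he.meas β θ a c v' h' n) hn1 hn2
  have h4 : (ev ω β θ a c v h n ∩ ev ω β θ a c v' h' n).Nonempty := by
    rw [Set.nonempty_iff_ne_empty]
    intro h5
    rw [h5] at h3
    simp at h3
    linarith
  obtain ⟨x, hx1, hx2⟩ := h4
  have hnn : θ * n ≤ (n : ℝ) := by nlinarith
  have h5 := drift_mono hd (A := tube θ v ((n : ℝ) ^ a) n) (A' := tube θ v' ((n : ℝ) ^ a) n)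
    (fun w hw => hw n hnn le_rfl) (fun w hw => hw n hnn le_rfl) hx1 hx2
  rw [← hs, ← hl] at h5
  rw [Real.rpow_one, div_mul_eq_mul_div, div_le_iff₀ hδ] at hn3 hn4
  have h6 : 0 < (n : ℝ) * (-s) := mul_pos hn5 hδ
  nlinarith

lemma bad_null (hd : 1 ≤ d) (ac : Pool.Agent.N662.SD.S_AC) (sel : S_SELD) {Ω : Type}
    [MeasurableSpace Ω] {P : Measure Ω}
    [IsProbabilityMeasure P] {ω : ℕ → (Fin d → ℤ) → Ω → ℝ} (he : IsEnv P ω)
    (hnc : ¬ ∃ c : ℝ, ∀ᵐ x ∂P, ω 1 0 x = c) {β : ℝ} (hβ : 0 < β) {θ a c : ℝ}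
    (hθ1 : 1 / 2 ≤ θ) (hθ2 : θ < 1) (ha0 : 0 ≤ a) (ha : a < 3 / (d + 4)) (ha' : a < 1 / d)
    (hc0 : 0 < c) (hc : c < (1 - d * a) / 2) : volume (bad P ω β θ a c) = 0 := by
  classical
  by_contra hvol
  have hdR : (1 : ℝ) ≤ d := by exact_mod_cast hd
  obtain ⟨a₀, b₀, hab, hp, hm⟩ := gap (he.meas 1 0) hnc
  set K0 := 1 / (P.map (ω 1 0)).real (Set.Ici b₀) + 1 / (P.map (ω 1 0)).real (Set.Iic a₀) with hK0
  have hK0pos : 0 < K0 := by positivity
  set q := 1 - Real.exp (-(β * (b₀ - a₀))) with hq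
  have hqpos : 0 < q := by
    rw [hq]
    have : Real.exp (-(β * (b₀ - a₀))) < 1 := by
      rw [← Real.exp_zero]
      apply Real.exp_lt_exp.2
      have := mul_pos hβ (sub_pos.2 hab)
      linarith
    linarith
  have ha1 : a < 1 := by
    refine ha'.trans_le ?_
    rw [div_le_one (by linarith)]
    exact hdR
  have hda : (0 : ℝ) ≤ d * a := by positivity
  have hcc1 : c < 1 := by linarith
  set B := bad P ω β θ a c with hB
  set g : (Fin d → ℝ) → (Fin d → ℝ) := fun v => if hv : v ∈ B then hv.choose else 0 with hg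
  have hgs : ∀ v ∈ B, ∀ᶠ n : ℕ in atTop, 3 / 4 ≤ P.real (ev ω β θ a c v (g v) n) := by
    intro v hv
    simp only [hg, dif_pos hv]
    exact hv.choose_spec
  have hmono : ∀ v ∈ B, ∀ v' ∈ B, 0 ≤ ∑ k, (g v' k - g v k) * (v' k - v k) :=
    fun v hv v' hv' => mono_of hd he hθ2.le ha1 hcc1 (hgs v hv) (hgs v' hv')
  set r : ℕ → ℝ := fun n => 5 * (max (n : ℝ) 1) ^ (a - 1) with hr
  have hrpos : ∀ n, 0 < r n := fun n => by
    simp only [hr]
    have : (0 : ℝ) < max (n : ℝ) 1 := lt_max_of_lt_right one_pos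
    positivity
  have hr0 : Tendsto r atTop (𝓝 0) := by
    have h1 : Tendsto (fun n : ℕ => max (n : ℝ) 1) atTop atTop :=
      tendsto_atTop_mono (fun n => le_max_left _ _) tendsto_natCast_atTop_atTop
    have h2 : Tendsto (fun n : ℕ => (max (n : ℝ) 1) ^ (-(1 - a))) atTop (𝓝 0) :=
      (tendsto_rpow_neg_atTop (by linarith)).comp h1
    have h3 := h2.const_mul 5
    rw [mul_zero] at h3
    refine h3.congr fun n => ?_
    simp only [hr]
    congr 2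
    ring
  obtain ⟨K, J, hKJ⟩ := sel d hd B hvol g hmono
    (fun v n => 3 / 4 ≤ P.real (ev ω β θ a c v (g v) n)) hgs r hrpos hr0
  set m := max (2 * a - 1) c with hmdef
  have hm0 : 0 < m := lt_max_of_lt_right hc0
  have hm1 : 2 * m + d * a < 1 := by
    rcases max_choice (2 * a - 1) c with h | h
    · rw [hmdef, h]
      rw [lt_div_iff₀ (by linarith)] at ha
      linarith
    · rw [hmdef, h]; linarith
  set C0 := 25 * d * |K| * |J| ^ 2 + 10 * d * |K| * |J| + 4 with hC0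
  have hC0pos : 0 < C0 := by positivity
  have e1 := pow_dom hm1 (3 ^ d * K0 * C0 ^ 2 / ((1 - θ) * (q ^ 2 / 4)) + 1)
  obtain ⟨n, ⟨v, hv, v', hv', hd1, hd2, hd3, hd4, hd5⟩, hn1, hn0⟩ :=
    (hKJ.and (e1.and (eventually_ge_atTop 1))).exists
  have hn2 : (1 : ℝ) ≤ n := by exact_mod_cast hn0
  have hn3 : (0 : ℝ) < n := by linarith
  have hrn : r n = 5 * (n : ℝ) ^ (a - 1) := by
    simp only [hr]
    rw [max_eq_left hn2]
  have hrn2 : r n * n = 5 * (n : ℝ) ^ a := by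
    rw [hrn, mul_assoc]
    congr 1
    nth_rewrite 2 [← Real.rpow_one (n : ℝ)]
    rw [← Real.rpow_add hn3]
    congr 1
    ring
  have hna : 0 < (n : ℝ) ^ a := Real.rpow_pos_of_pos hn3 _
  -- the tubes are disjoint
  have hk : ∃ k, r n ≤ |v' k - v k| := by
    by_contra hcon
    push Not at hcon
    have h1 : ‖v' - v‖ < r n := by
      rw [pi_norm_lt_iff (hrpos n)]
      intro k
      rw [Pi.sub_apply, Real.norm_eq_abs]
      exact hcon k
    linarith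
  have hvv : ∀ i : ℕ, θ * n ≤ i → 1 ≤ i → i ≤ n → ∃ k, 2 * (n : ℝ) ^ a < i * |v' k - v k| := by
    intro i hi _ _
    obtain ⟨k, hk⟩ := hk
    refine ⟨k, ?_⟩
    have h1 : (n : ℝ) / 2 ≤ i := by nlinarith
    calc 2 * (n : ℝ) ^ a < (5 * (n : ℝ) ^ a) / 2 := by linarith
      _ = n / 2 * r n := by rw [← hrn2]; ring
      _ ≤ i * |v' k - v k| := mul_le_mul h1 hk (hrpos n).le (by positivity)
  -- the bound on R
  set R := (C0 - 2) * (n : ℝ) ^ m with hRdef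
  have hnm : 1 ≤ (n : ℝ) ^ m := Real.one_le_rpow hn2 hm0.le
  have hR0 : 0 ≤ R := by
    have : 0 ≤ C0 - 2 := by
      rw [hC0]
      have : 0 ≤ 25 * d * |K| * |J| ^ 2 + 10 * d * |K| * |J| := by positivity
      linarith
    positivity
  have hd6 : ‖v' - v‖ ≤ |J| * r n := hd2.trans (mul_le_mul_of_nonneg_right (le_abs_self _)
    (hrpos n).le)
  have hd7 : ‖g v' - g v‖ ≤ |K| * (|J| * r n) :=
    hd3.trans ((mul_le_mul_of_nonneg_right (le_abs_self K) (norm_nonneg _)).trans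
      (mul_le_mul_of_nonneg_left hd6 (abs_nonneg _)))
  have hq1 : r n * (n : ℝ) ^ a = 5 * (n : ℝ) ^ (2 * a - 1) := by
    rw [hrn, mul_assoc, ← Real.rpow_add hn3]
    congr 2
    ring
  have hm2 : (n : ℝ) ^ (2 * a - 1) ≤ (n : ℝ) ^ m := Real.rpow_le_rpow_of_exponent_le hn2
    (le_max_left _ _)
  have hm3 : (n : ℝ) ^ c ≤ (n : ℝ) ^ m := Real.rpow_le_rpow_of_exponent_le hn2 (le_max_right _ _)
  have hc1 : ∀ k, |g v' k - g v k| ≤ |K| * (|J| * r n) := fun k =>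
    (norm_le_pi_norm (g v' - g v) k).trans hd7
  have hc2 : ∀ k, |v' k - v k| ≤ |J| * r n := fun k =>
    (norm_le_pi_norm (v' - v) k).trans hd6
  have hJr : 0 ≤ |J| * r n := mul_nonneg (abs_nonneg _) (hrpos n).le
  have hR2 : n * (∑ k, (g v' k - g v k) * (v' k - v k)) +
      2 * (∑ k, |g v' k - g v k|) * (n : ℝ) ^ a + 2 * (n : ℝ) ^ c ≤ R := by
    have s0 : ∑ k, (g v' k - g v k) * (v' k - v k) ≤ d * ((|K| * (|J| * r n)) * (|J| * r n)) := by
      calc ∑ k, (g v' k - g v k) * (v' k - v k) ≤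
          ∑ _k : Fin d, ((|K| * (|J| * r n)) * (|J| * r n)) := by
            apply Finset.sum_le_sum
            intro k _
            refine (le_abs_self _).trans ?_
            rw [abs_mul]
            exact mul_le_mul (hc1 k) (hc2 k) (abs_nonneg _) (by positivity)
        _ = _ := by simp
    have s0' : ∑ k, |g v' k - g v k| ≤ d * (|K| * (|J| * r n)) := by
      calc ∑ k, |g v' k - g v k| ≤ ∑ _k : Fin d, (|K| * (|J| * r n)) :=
            Finset.sum_le_sum fun k _ => hc1 k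
        _ = _ := by simp
    have s1 : n * (∑ k, (g v' k - g v k) * (v' k - v k)) ≤
        n * (d * ((|K| * (|J| * r n)) * (|J| * r n))) := mul_le_mul_of_nonneg_left s0 hn3.le
    have s2 : n * (d * ((|K| * (|J| * r n)) * (|J| * r n))) =
        25 * d * |K| * |J| ^ 2 * (n : ℝ) ^ (2 * a - 1) := by
      calc n * (d * ((|K| * (|J| * r n)) * (|J| * r n))) =
          d * |K| * |J| ^ 2 * (r n * (r n * n)) := by ring
        _ = d * |K| * |J| ^ 2 * (5 * (r n * (n : ℝ) ^ a)) := by rw [hrn2]; ring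
        _ = _ := by rw [hq1]; ring
    have s3 : 2 * (∑ k, |g v' k - g v k|) * (n : ℝ) ^ a ≤
        2 * (d * (|K| * (|J| * r n))) * (n : ℝ) ^ a :=
      mul_le_mul_of_nonneg_right (by linarith) hna.le
    have s4 : 2 * (d * (|K| * (|J| * r n))) * (n : ℝ) ^ a =
        10 * d * |K| * |J| * (n : ℝ) ^ (2 * a - 1) := by
      calc 2 * (d * (|K| * (|J| * r n))) * (n : ℝ) ^ a =
          2 * d * |K| * |J| * (r n * (n : ℝ) ^ a) := by ring
        _ = _ := by rw [hq1]; ring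
    have s5 : 25 * d * |K| * |J| ^ 2 * (n : ℝ) ^ (2 * a - 1) ≤
        25 * d * |K| * |J| ^ 2 * (n : ℝ) ^ m :=
      mul_le_mul_of_nonneg_left hm2 (by positivity)
    have s6 : 10 * d * |K| * |J| * (n : ℝ) ^ (2 * a - 1) ≤ 10 * d * |K| * |J| * (n : ℝ) ^ m :=
      mul_le_mul_of_nonneg_left hm2 (by positivity)
    have s7 : R = 25 * d * |K| * |J| ^ 2 * (n : ℝ) ^ m + 10 * d * |K| * |J| * (n : ℝ) ^ m +
        2 * (n : ℝ) ^ m := by
      rw [hRdef, hC0]; ring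
    linarith
  have key := pair_bound hd ac he hab hp hm hβ hθ2.le hvv hR0 hR2
  have hhalf : 1 / 2 ≤ P.real {x | Real.exp (-(n : ℝ) ^ c) <
      prob β (g v) (fun i y => ω i y x) n (tube θ v ((n : ℝ) ^ a) n) ∧
      Real.exp (-(n : ℝ) ^ c) <
      prob β (g v') (fun i y => ω i y x) n (tube θ v' ((n : ℝ) ^ a) n)} :=
    inter_ge (measurableSet_ev he.meas β θ a c v' (g v') n) hd4 hd5
  set ρ : ℝ := ((rows θ n).card : ℝ) with hρ
  have hρ1 : (1 - θ) * n ≤ ρ := rows_card_ge (by linarith) n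
  have hρ0 : 0 < ρ := lt_of_lt_of_le (mul_pos (by linarith) hn3) hρ1
  set W : ℝ := (3 * (n : ℝ) ^ a) ^ d with hW
  have hW0 : 0 < W := by positivity
  have hwin : ((win θ v ((n : ℝ) ^ a) n).card : ℝ) ≤ ρ * W := by
    refine (card_win_le hna.le).trans ?_
    apply mul_le_mul_of_nonneg_left _ hρ0.le
    have : 1 ≤ (n : ℝ) ^ a := Real.one_le_rpow hn2 ha0
    exact pow_le_pow_left₀ (by positivity) (by linarith) d
  have hRC : R + 2 ≤ C0 * (n : ℝ) ^ m := by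
    rw [hRdef]
    nlinarith
  have k1 : ρ * q * (1 / 2) ≤ C0 * (n : ℝ) ^ m * Real.sqrt (ρ * W * K0) := by
    calc ρ * q * (1 / 2) ≤ _ := mul_le_mul_of_nonneg_left hhalf (by positivity)
      _ ≤ _ := key
      _ ≤ C0 * (n : ℝ) ^ m * Real.sqrt (ρ * W * K0) := by
        apply mul_le_mul hRC _ (Real.sqrt_nonneg _) (by positivity)
        apply Real.sqrt_le_sqrt
        exact mul_le_mul_of_nonneg_right hwin hK0pos.le
  have k2 : (ρ * q * (1 / 2)) ^ 2 ≤ (C0 * (n : ℝ) ^ m) ^ 2 * (ρ * W * K0) := by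
    have h1 : (0 : ℝ) ≤ ρ * W * K0 := by positivity
    calc (ρ * q * (1 / 2)) ^ 2 ≤ (C0 * (n : ℝ) ^ m * Real.sqrt (ρ * W * K0)) ^ 2 :=
          pow_le_pow_left₀ (by positivity) k1 2
      _ = _ := by rw [mul_pow, Real.sq_sqrt h1]
  have k3 : ρ * (q ^ 2 / 4) ≤ K0 * C0 ^ 2 * ((n : ℝ) ^ m) ^ 2 * W := by
    have h1 : ρ * (ρ * (q ^ 2 / 4)) ≤ ρ * (K0 * C0 ^ 2 * ((n : ℝ) ^ m) ^ 2 * W) := by
      calc ρ * (ρ * (q ^ 2 / 4)) = (ρ * q * (1 / 2)) ^ 2 := by ring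
        _ ≤ _ := k2
        _ = _ := by ring
    exact le_of_mul_le_mul_left h1 hρ0
  have k4 : ((n : ℝ) ^ m) ^ 2 * W = 3 ^ d * (n : ℝ) ^ (2 * m + d * a) := by
    rw [hW, mul_pow, ← Real.rpow_natCast ((n : ℝ) ^ m) 2, ← Real.rpow_mul hn3.le,
      ← Real.rpow_natCast ((n : ℝ) ^ a) d, ← Real.rpow_mul hn3.le, mul_left_comm,
      ← Real.rpow_add hn3]
    congr 2
    push_cast
    ring
  have k5 : (1 - θ) * (q ^ 2 / 4) * n ≤ 3 ^ d * K0 * C0 ^ 2 * (n : ℝ) ^ (2 * m + d * a) := by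
    calc (1 - θ) * (q ^ 2 / 4) * n = (1 - θ) * n * (q ^ 2 / 4) := by ring
      _ ≤ ρ * (q ^ 2 / 4) := mul_le_mul_of_nonneg_right hρ1 (by positivity)
      _ ≤ _ := k3
      _ = K0 * C0 ^ 2 * (((n : ℝ) ^ m) ^ 2 * W) := by ring
      _ = _ := by rw [k4]; ring
  rw [Real.rpow_one] at hn1
  have k6 : 0 < (1 - θ) * (q ^ 2 / 4) := mul_pos (by linarith) (by positivity)
  have k7 : 0 < (n : ℝ) ^ (2 * m + d * a) := Real.rpow_pos_of_pos hn3 _
  have k8 : (1 - θ) * (q ^ 2 / 4) *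
      ((3 ^ d * K0 * C0 ^ 2 / ((1 - θ) * (q ^ 2 / 4)) + 1) * (n : ℝ) ^ (2 * m + d * a)) ≤
      (1 - θ) * (q ^ 2 / 4) * n := mul_le_mul_of_nonneg_left hn1 k6.le
  have k9 : (1 - θ) * (q ^ 2 / 4) *
      ((3 ^ d * K0 * C0 ^ 2 / ((1 - θ) * (q ^ 2 / 4)) + 1) * (n : ℝ) ^ (2 * m + d * a)) =
      3 ^ d * K0 * C0 ^ 2 * (n : ℝ) ^ (2 * m + d * a) +
        (1 - θ) * (q ^ 2 / 4) * (n : ℝ) ^ (2 * m + d * a) := by
    rw [add_mul, mul_add, one_mul, div_mul_eq_mul_div, mul_div_cancel₀ _ k6.ne']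
  have k10 : 0 < (1 - θ) * (q ^ 2 / 4) * (n : ℝ) ^ (2 * m + d * a) := mul_pos k6 k7
  linarith

lemma tube_mono {θ θ' r r' : ℝ} {v : Fin d → ℝ} {n : ℕ} (hθ : θ ≤ θ') (hr : r ≤ r') :
    tube θ v r n ⊆ tube θ' v r' n := by
  intro w hw i hi hin k
  refine (hw i ?_ hin k).trans hr
  refine le_trans ?_ hi
  exact mul_le_mul_of_nonneg_right hθ (Nat.cast_nonneg n)

theorem main (ac : Pool.Agent.N662.SD.S_AC) (sel : S_SELD) (zo : S_ZOD) : S_LOWD := by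
  intro d hd Ω _ P _ ω he hnc β hβ
  have hdR : (1 : ℝ) ≤ d := by exact_mod_cast hd
  have hd0 : (0 : ℝ) < d := by linarith
  refine ⟨⋃ p : ℚ × ℚ × ℚ, ⋃ _ : 1 / 2 ≤ (p.1 : ℝ) ∧ (p.1 : ℝ) < 1 ∧ 0 ≤ (p.2.1 : ℝ) ∧
    (p.2.1 : ℝ) < 3 / (d + 4) ∧ (p.2.1 : ℝ) < 1 / d ∧ 0 < (p.2.2 : ℝ) ∧
    (p.2.2 : ℝ) < (1 - d * (p.2.1 : ℝ)) / 2,
    bad P ω β p.1 p.2.1 p.2.2, ?_, ?_⟩
  · apply measure_iUnion_null
    intro p
    apply measure_iUnion_null
    rintro ⟨h1, h2, h3, h4, h4', h5, h6⟩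
    exact bad_null hd ac sel he hnc hβ h1 h2 h3 h4 h4' h5 h6
  · intro v hv h θ a c hθ ha0 ha haD hc
    obtain ⟨θ', hθ1, hθ2⟩ := exists_rat_btwn (max_lt hθ (by norm_num : (1 / 2 : ℝ) < 1))
    have hac : a < (1 - 2 * c) / d := by
      rw [lt_div_iff₀ hd0]
      linarith
    have haa : a < min (3 / ((d : ℝ) + 4)) (min (1 / (d : ℝ)) ((1 - 2 * c) / (d : ℝ))) :=
      lt_min ha (lt_min haD hac)
    obtain ⟨a', ha1, ha2⟩ := exists_rat_btwn haa
    have ha3 := lt_min_iff.1 ha2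
    have ha4 := lt_min_iff.1 ha3.2
    have h1d := ha4.1
    have h2d := ha4.2
    rw [lt_div_iff₀ hd0] at h1d h2d
    have hcc : max c 0 < (1 - d * (a' : ℝ)) / 2 := max_lt (by linarith) (by linarith)
    obtain ⟨c', hc1, hc2⟩ := exists_rat_btwn hcc
    have hθ3 := max_lt_iff.1 hθ1
    have hc3 := max_lt_iff.1 hc1
    have hnb : ¬ ∀ᶠ n : ℕ in atTop, 3 / 4 ≤ P.real (ev ω β θ' a' c' v h n) := by
      intro hcon
      apply hv
      rw [Set.mem_iUnion]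
      refine ⟨(θ', a', c'), ?_⟩
      rw [Set.mem_iUnion]
      exact ⟨⟨hθ3.2.le, hθ2, by linarith, ha3.1, ha4.1, hc3.2, hc2⟩, h, hcon⟩
    have hz := zo d hd Ω P ω he β h (fun n => tube θ' v ((n : ℝ) ^ (a' : ℝ)) n)
      (fun n => (n : ℝ) ^ (c' : ℝ)) (fun hcon => hnb (ev_large hcon))
    filter_upwards [hz] with x hx
    obtain ⟨C, hC⟩ := hx
    have e1 := pow_dom hc3.1 2
    have e2 := pow_dom hc3.2 (2 * C)
    refine (hC.and_eventually (e1.and (e2.and (eventually_ge_atTop 1)))).mono ?_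
    rintro n ⟨h1, h2, h3, hn⟩
    have hn1 : (1 : ℝ) ≤ n := by exact_mod_cast hn
    rw [Real.rpow_zero, mul_one] at h3
    calc prob β h (fun i y => ω i y x) n (tube θ v ((n : ℝ) ^ a) n) ≤
        prob β h (fun i y => ω i y x) n (tube θ' v ((n : ℝ) ^ (a' : ℝ)) n) :=
          prob_mono _ _ _ (tube_mono hθ3.1.le (Real.rpow_le_rpow_of_exponent_le hn1 ha1.le))
      _ ≤ _ := h1
      _ ≤ _ := Real.exp_le_exp.2 (by linarith)

end Pool.Agent.N662.SE
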