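import Pool.Agent.N662.SE.Def
import Pool.Agent.N662.SD.Stm

/-!
# Project SE: statements of the parts
-/

set_option autoImplicit false

open MeasureTheory ProbabilityTheory Filter Topology

namespace Pool.Agent.N662.SE

open TH967.DP

/-- SELD: in a set of positive outer measure of `ℝ^d` carrying a monotone map there are pairs of
points at distance comparable to `r n`, with controlled increment of the map, which are both good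
for `n`. -/
def S_SELD : Prop := ∀ d : ℕ, 1 ≤ d → ∀ B : Set (Fin d → ℝ), volume B ≠ 0 →
  ∀ h : (Fin d → ℝ) → (Fin d → ℝ),
  (∀ v ∈ B, ∀ v' ∈ B, 0 ≤ ∑ k, (h v' k - h v k) * (v' k - v k)) →
  ∀ Q : (Fin d → ℝ) → ℕ → Prop, (∀ v ∈ B, ∀ᶠ n in atTop, Q v n) →
  ∀ r : ℕ → ℝ, (∀ n, 0 < r n) → Tendsto r atTop (𝓝 0) →
  ∃ K J : ℝ, ∀ᶠ n in atTop, ∃ v ∈ B, ∃ v' ∈ B, r n ≤ ‖v' - v‖ ∧ ‖v' - v‖ ≤ J * r n ∧
    ‖h v' - h v‖ ≤ K * ‖v' - v‖ ∧ Q v n ∧ Q v' n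

/-- ZOD: a zero-one law, dimension `d`. -/
def S_ZOD : Prop := ∀ d : ℕ, 1 ≤ d → ∀ (Ω : Type) [MeasurableSpace Ω] (P : Measure Ω)
  [IsProbabilityMeasure P] (ω : ℕ → (Fin d → ℤ) → Ω → ℝ), IsEnv P ω →
  ∀ (β : ℝ) (h : Fin d → ℝ) (A : ∀ n : ℕ, Set (Fin n → Step d)) (b : ℕ → ℝ),
  ¬ (∀ᵐ x ∂P, ∀ᶠ n in atTop, Real.exp (-b n) < prob β h (fun i y => ω i y x) n (A n)) →
  ∀ᵐ x ∂P, ∃ C : ℝ, ∃ᶠ n in atTop, prob β h (fun i y => ω i y x) n (A n) ≤ Real.exp (C - b n)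

/-- The lower bound in dimension `d`: `ν ≥ min (3/(d+4)) (1/d)` in almost every direction. -/
def S_LOWD : Prop := ∀ d : ℕ, 1 ≤ d → ∀ (Ω : Type) [MeasurableSpace Ω] (P : Measure Ω)
  [IsProbabilityMeasure P] (ω : ℕ → (Fin d → ℤ) → Ω → ℝ), IsEnv P ω →
  (¬ ∃ c : ℝ, ∀ᵐ x ∂P, ω 1 0 x = c) → ∀ β : ℝ, 0 < β →
  ∃ N : Set (Fin d → ℝ), volume N = 0 ∧ ∀ v : Fin d → ℝ, v ∉ N → ∀ (h : Fin d → ℝ) (θ a c : ℝ),
    θ < 1 → 0 ≤ a → a < 3 / (d + 4) → a < 1 / d → c < (1 - d * a) / 2 →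
    ∀ᵐ x ∂P, ∃ᶠ n : ℕ in atTop,
      prob β h (fun i y => ω i y x) n (tube θ v ((n : ℝ) ^ a) n) ≤ Real.exp (-(n : ℝ) ^ c)

/-- MGF: exponential moments of functions of independent blocks. -/
def S_MGF : Prop := ∀ (E : Type) [MeasurableSpace E] (ρ : Measure E) [IsProbabilityMeasure ρ]
  (n : ℕ) (f : (Fin n → E) → ℝ) (g : Fin n → (Fin n → E) → ℝ) (K : ℝ), Measurable f →
  (∀ i, Measurable (g i)) → (∀ i x e, g i (Function.update x i e) = g i x) →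
  (∀ i x, ∫⁻ e, ENNReal.ofReal (Real.exp |f (Function.update x i e) - g i x|) ∂ρ ≤
    ENNReal.ofReal K) →
  Integrable f (Measure.pi fun _ => ρ) ∧ ∀ l : ℝ, |l| ≤ 1 / 4 →
    ∫⁻ x, ENNReal.ofReal (Real.exp (l * (f x - ∫ y, f y ∂(Measure.pi fun _ => ρ))))
      ∂(Measure.pi fun _ => ρ) ≤ ENNReal.ofReal (Real.exp (16 * K * l ^ 2 * n))

/-- CONC: concentration of the free energy, uniformly in the drift and in the shift. -/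
def S_CONC : Prop := ∀ d : ℕ, 1 ≤ d → ∀ (Ω : Type) [MeasurableSpace Ω] (P : Measure Ω)
  [IsProbabilityMeasure P] (ω : ℕ → (Fin d → ℤ) → Ω → ℝ), IsEnv P ω →
  (∀ b : ℝ, Integrable (fun x => Real.exp (b * ω 1 0 x)) P) →
  ∀ (β : ℝ) (h : Fin d → ℝ) (m : ℕ) (z : Fin d → ℤ) (n : ℕ),
    Measurable (lw ω β h m z n) ∧ Integrable (lw ω β h m z n) P ∧
    ∫ x, lw ω β h m z n x ∂P = free P ω β h n ∧ ∀ l : ℝ, |l| ≤ 1 / 4 →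
      ∫⁻ x, ENNReal.ofReal (Real.exp (l * (lw ω β h m z n x - free P ω β h n))) ∂P ≤
        ENNReal.ofReal (Real.exp (16 * mom P ω β * l ^ 2 * n))

/-- SUP: superadditivity of `E log W_n(h)`. -/
def S_SUP : Prop := ∀ d : ℕ, 1 ≤ d → ∀ (Ω : Type) [MeasurableSpace Ω] (P : Measure Ω)
  [IsProbabilityMeasure P] (ω : ℕ → (Fin d → ℤ) → Ω → ℝ), IsEnv P ω →
  (∀ b : ℝ, Integrable (fun x => Real.exp (b * ω 1 0 x)) P) →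
  ∀ (β : ℝ) (h : Fin d → ℝ) (m n : ℕ),
    free P ω β h m + free P ω β h n ≤ free P ω β h (m + n)

/-- DBL: doubling. -/
def S_DBL : Prop := ∀ d : ℕ, 1 ≤ d → ∀ (Ω : Type) [MeasurableSpace Ω] (P : Measure Ω)
  [IsProbabilityMeasure P] (ω : ℕ → (Fin d → ℤ) → Ω → ℝ), IsEnv P ω →
  (∀ b : ℝ, Integrable (fun x => Real.exp (b * ω 1 0 x)) P) →
  ∀ β : ℝ, ∃ C : ℝ, ∀ (h : Fin d → ℝ) (m : ℕ), 1 ≤ m →
    free P ω β h (2 * m) ≤ 2 * free P ω β h m + C * Real.sqrt m * Real.log (m + 1)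

/-- CVX: convexity in the drift. -/
def S_CVX : Prop := ∀ d : ℕ, 1 ≤ d → ∀ (Ω : Type) [MeasurableSpace Ω] (P : Measure Ω)
  [IsProbabilityMeasure P] (ω : ℕ → (Fin d → ℤ) → Ω → ℝ), IsEnv P ω →
  (∀ b : ℝ, Integrable (fun x => Real.exp (b * ω 1 0 x)) P) →
  ∀ (β : ℝ) (n : ℕ), ConvexOn ℝ Set.univ (fun h : Fin d → ℝ => free P ω β h n)

/-- RATE: the limit and the rate of convergence. -/
def S_RATE : Prop := ∀ d : ℕ, 1 ≤ d → ∀ (Ω : Type) [MeasurableSpace Ω] (P : Measure Ω)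
  [IsProbabilityMeasure P] (ω : ℕ → (Fin d → ℤ) → Ω → ℝ), IsEnv P ω →
  (∀ b : ℝ, Integrable (fun x => Real.exp (b * ω 1 0 x)) P) →
  ∀ β : ℝ, ∃ (φ : (Fin d → ℝ) → ℝ) (C : ℝ), ConvexOn ℝ Set.univ φ ∧ ∀ (h : Fin d → ℝ) (n : ℕ),
    free P ω β h n ≤ n * φ h ∧
    n * φ h ≤ free P ω β h n + C * Real.sqrt n * Real.log (n + 1)

/-- CURV: upper curvature of a convex function at almost every point. -/
def S_CURV : Prop := ∀ (d : ℕ) (φ : (Fin d → ℝ) → ℝ), ConvexOn ℝ Set.univ φ →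
  ∀ᵐ h : Fin d → ℝ, ∃ (v : Fin d → ℝ) (C : ℝ), 0 ≤ C ∧ ∀ (k : Fin d) (s : ℝ), |s| ≤ 1 →
    φ (h + Pi.single k s) ≤ φ h + s * v k + C * s ^ 2

/-- PP: pathwise upper bound for the tail of one coordinate of `S_i`. -/
def S_PP : Prop := ∀ (d : ℕ) (β : ℝ) (h : Fin d → ℝ) (η : ℕ → (Fin d → ℤ) → ℝ) (n i : ℕ),
  i ≤ n → ∀ (k : Fin d) (s u M : ℝ), (∀ z : Fin d → ℤ, (∀ j, |z j| ≤ n) →
    Real.log (part β h (fun j y => η (i + j) (z + y)) (n - i) Set.univ) ≤ M) →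
  part β h η n {w | u ≤ s * (pos w i k : ℝ)} ≤
    Real.exp (-u + M) * part β (h + Pi.single k s) η i Set.univ

/-- The upper bound: `ν ≤ 3/4` for almost every drift, with the moderate deviations. -/
def S_UPD : Prop := ∀ d : ℕ, 1 ≤ d → ∀ (Ω : Type) [MeasurableSpace Ω] (P : Measure Ω)
  [IsProbabilityMeasure P] (ω : ℕ → (Fin d → ℤ) → Ω → ℝ), IsEnv P ω →
  (∀ b : ℝ, Integrable (fun x => Real.exp (b * ω 1 0 x)) P) → ∀ β : ℝ,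
  ∀ᵐ h : Fin d → ℝ, ∃ v : Fin d → ℝ, ∀ b c : ℝ, 3 / 4 < b → b ≤ 1 → c < 2 * b - 1 →
    ∀ᵐ x ∂P, ∀ᶠ n : ℕ in atTop,
      1 - Real.exp (-(n : ℝ) ^ c) ≤ prob β h (fun i y => ω i y x) n
        {w | ∀ i : ℕ, i ≤ n → ∀ k, |(pos w i k : ℝ) - i * v k| ≤ (n : ℝ) ^ b}

/-- VAR: in dimension one, confinement implies a lower bound for the variance. -/
def S_VAR : Prop := Pool.Agent.N662.SD.S_AC → ∀ (Ω : Type) [MeasurableSpace Ω] (P : Measure Ω)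
  [IsProbabilityMeasure P] (ω : ℕ → (Fin 1 → ℤ) → Ω → ℝ), IsEnv P ω →
  (∀ b : ℝ, Integrable (fun x => Real.exp (b * ω 1 0 x)) P) →
  (¬ ∃ c : ℝ, ∀ᵐ x ∂P, ω 1 0 x = c) → ∀ β : ℝ, 0 < β → ∀ (h v : Fin 1 → ℝ) (b : ℝ), 0 ≤ b → b < 1 →
  (∀ᶠ n : ℕ in atTop, 3 / 4 ≤ P.real {x | 1 / 2 ≤ prob β h (fun i y => ω i y x) n
    {w | ∀ i : ℕ, i ≤ n → ∀ k, |(pos w i k : ℝ) - i * v k| ≤ (n : ℝ) ^ b}}) →
  ∀ t : ℝ, t < (1 - b) / 2 → ∀ᶠ n : ℕ in atTop, (n : ℝ) ^ (2 * t) ≤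
    ∫ x, (lw ω β h 0 0 n x - free P ω β h n) ^ 2 ∂P

end Pool.Agent.N662.SE
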