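import Pool.Agent.N662.SE.Det

/-!
# Project SE: from the maximum norm to the Euclidean norm, and the wandering exponent
-/

set_option autoImplicit false

open MeasureTheory ProbabilityTheory Filter Topology

namespace Pool.Agent.N662.SE

open TH967.DP (Step pos energy)

variable {d : ℕ}

/-- The Euclidean norm of `S_i - i v`. -/
noncomputable def dev (v : Fin d → ℝ) {n : ℕ} (w : Fin n → Step d) (i : ℕ) : ℝ :=
  Real.sqrt (∑ k, ((pos w i k : ℝ) - i * v k) ^ 2)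

lemma dev_le_of {v : Fin d → ℝ} {n : ℕ} {w : Fin n → Step d} {i : ℕ} {r : ℝ} (hr : 0 ≤ r)
    (h : ∀ k, |(pos w i k : ℝ) - i * v k| ≤ r) : dev v w i ≤ d * r := by
  unfold dev
  apply Real.sqrt_le_iff.2
  refine ⟨by positivity, ?_⟩
  have h1 := Finset.sum_sq_le_sq_sum_of_nonneg (s := Finset.univ)
    (f := fun k => |(pos w i k : ℝ) - i * v k|) (fun _ _ => abs_nonneg _)
  simp only [sq_abs] at h1
  refine h1.trans ?_
  apply pow_le_pow_left₀ (Finset.sum_nonneg (fun _ _ => abs_nonneg _))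
  calc ∑ k, |(pos w i k : ℝ) - i * v k| ≤ ∑ _k : Fin d, r := Finset.sum_le_sum fun k _ => h k
    _ = d * r := by simp

lemma pow_dom' {s t : ℝ} (hst : s < t) (C : ℝ) :
    ∀ᶠ n : ℕ in atTop, C * (n : ℝ) ^ s ≤ (n : ℝ) ^ t := by
  have h1 : Tendsto (fun n : ℕ => (n : ℝ) ^ (t - s)) atTop atTop :=
    (tendsto_rpow_atTop (by linarith)).comp tendsto_natCast_atTop_atTop
  filter_upwards [h1.eventually_ge_atTop C, eventually_gt_atTop 0] with n hn hn0
  have hn1 : (0 : ℝ) < n := by exact_mod_cast hn0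
  calc C * (n : ℝ) ^ s ≤ (n : ℝ) ^ (t - s) * (n : ℝ) ^ s :=
        mul_le_mul_of_nonneg_right hn (Real.rpow_nonneg hn1.le _)
    _ = (n : ℝ) ^ t := by rw [← Real.rpow_add hn1]; congr 1; ring

/-- the upper bound with the Euclidean norm -/
theorem up_euclid {Ω : Type} [MeasurableSpace Ω] {P : Measure Ω}
    {ω : ℕ → (Fin d → ℤ) → Ω → ℝ} {β : ℝ} {h v : Fin d → ℝ}
    (hup : ∀ b c : ℝ, 3 / 4 < b → b ≤ 1 → c < 2 * b - 1 →
      ∀ᵐ x ∂P, ∀ᶠ n : ℕ in atTop,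
        1 - Real.exp (-(n : ℝ) ^ c) ≤ prob β h (fun i y => ω i y x) n
          {w | ∀ i : ℕ, i ≤ n → ∀ k, |(pos w i k : ℝ) - i * v k| ≤ (n : ℝ) ^ b})
    (b c : ℝ) (hb : 3 / 4 < b) (hb1 : b ≤ 1) (hc : c < 2 * b - 1) :
    ∀ᵐ x ∂P, ∀ᶠ n : ℕ in atTop,
      1 - Real.exp (-(n : ℝ) ^ c) ≤ prob β h (fun i y => ω i y x) n
        {w | ∀ i : ℕ, i ≤ n → dev v w i ≤ (n : ℝ) ^ b} := by
  obtain ⟨b', hb'1, hb'2⟩ := exists_between (max_lt hb (by linarith : (c + 1) / 2 < b))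
  have hb3 := max_lt_iff.1 hb'1
  filter_upwards [hup b' c hb3.1 (by linarith) (by linarith)] with x hx
  filter_upwards [hx, pow_dom' hb'2 d] with n hn hn2
  refine hn.trans (prob_mono _ _ _ ?_)
  intro w hw i hi
  exact (dev_le_of (Real.rpow_nonneg (Nat.cast_nonneg n) _) (hw i hi)).trans hn2

end Pool.Agent.N662.SE
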